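import Mathlib

/-!
Contractive multipliers of truncated square norms and the construction of a substitution that is
ramified over a given finite set of points.
-/

set_option autoImplicit false

noncomputable section

namespace Pool.Agent.Lib.MP_f61260_nt.L2

open Finset PowerSeries ComplexConjugate

/-- The truncated square norm. -/
def nq (N : ℕ) (u : ℂ⟦X⟧) : ℝ := ∑ n ∈ range N, ‖coeff n u‖ ^ 2

/-- Bounded multipliers with a given constant. -/
def Bd (K : ℝ) (ψ : ℂ⟦X⟧) : Prop := ∀ N u, nq N (ψ * u) ≤ K * nq N u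

/-- Growth of order at most `r`. -/
def Gr (r : ℝ) (h : ℂ⟦X⟧) : Prop := ∃ K : ℝ, 0 ≤ K ∧ ∀ N, nq N h ≤ K * (r ^ N) ^ 2

/-- The cost of a branch point. -/
def FF (W : ℝ) : ℝ := if W ≤ 1 then 1 else (1 + W) ^ 2 / (4 * W)

theorem nq_nonneg (N : ℕ) (u : ℂ⟦X⟧) : 0 ≤ nq N u := sum_nonneg fun _ _ => sq_nonneg _

theorem coeff_sq_le (n : ℕ) (u : ℂ⟦X⟧) : ‖coeff n u‖ ^ 2 ≤ nq (n + 1) u :=
  single_le_sum (f := fun n => ‖coeff n u‖ ^ 2) (fun _ _ => sq_nonneg _) (self_mem_range_succ n)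

theorem nq_C_mul (N : ℕ) (c : ℂ) (u : ℂ⟦X⟧) : nq N (C c * u) = ‖c‖ ^ 2 * nq N u := by
  simp only [nq, coeff_C_mul, norm_mul, mul_pow, mul_sum]

theorem nq_add_le (N : ℕ) (u v : ℂ⟦X⟧) : nq N (u + v) ≤ 2 * nq N u + 2 * nq N v := by
  simp only [nq, mul_sum, ← sum_add_distrib, map_add]
  refine sum_le_sum fun n _ => ?_
  have h := norm_add_le (coeff n u) (coeff n v)
  have h2 := pow_le_pow_left₀ (norm_nonneg _) h 2
  nlinarith [sq_nonneg (‖coeff n u‖ - ‖coeff n v‖)]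

theorem Bd.mul {K K' : ℝ} {ψ χ : ℂ⟦X⟧} (hK : 0 ≤ K) (h : Bd K ψ) (h' : Bd K' χ) :
    Bd (K * K') (ψ * χ) := fun N u => by
  rw [mul_assoc, mul_assoc]
  exact (h N _).trans (mul_le_mul_of_nonneg_left (h' N u) hK)

theorem Bd.pow {K : ℝ} {ψ : ℂ⟦X⟧} (hK : 0 ≤ K) (h : Bd K ψ) (m : ℕ) : Bd (K ^ m) (ψ ^ m) := by
  induction m with
  | zero => intro N u; simp
  | succ m ih => rw [pow_succ', pow_succ']; exact h.mul hK ih

theorem bd_C (c : ℂ) : Bd (‖c‖ ^ 2) (C c) := fun N u => (nq_C_mul N c u).le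

theorem bd_lin {ψ : ℂ⟦X⟧} (h : Bd 1 ψ) (c : ℂ) : Bd (2 + 2 * ‖c‖ ^ 2) (1 - C c * ψ) := by
  intro N u
  have e : (1 - C c * ψ) * u = u + C (-c) * (ψ * u) := by rw [map_neg]; ring
  rw [e]
  refine (nq_add_le _ _ _).trans ?_
  rw [nq_C_mul, norm_neg]
  have := h N u
  have h2 := sq_nonneg ‖c‖
  nlinarith

theorem Gr.mul {K r : ℝ} {ψ h : ℂ⟦X⟧} (hK : 0 ≤ K) (hψ : Bd K ψ) (hh : Gr r h) :
    Gr r (ψ * h) := by
  obtain ⟨K', h0, hK'⟩ := hh
  refine ⟨K * K', mul_nonneg hK h0, fun N => (hψ N h).trans ?_⟩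
  rw [mul_assoc]
  exact mul_le_mul_of_nonneg_left (hK' N) hK

theorem bd_X : Bd 1 (X : ℂ⟦X⟧) := by
  intro N u
  rw [one_mul]
  cases N with
  | zero => simp [nq]
  | succ N =>
    rw [nq, sum_range_succ']
    simp only [coeff_succ_X_mul, coeff_zero_X_mul, norm_zero]
    rw [nq, sum_range_succ]
    have := sq_nonneg ‖coeff N u‖
    linarith

theorem key_pt (a y c : ℂ) :
    ‖y + conj c * a‖ ^ 2 - ‖a + c * y‖ ^ 2 = (1 - ‖c‖ ^ 2) * (‖y‖ ^ 2 - ‖a‖ ^ 2) := by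
  simp only [Complex.sq_norm, Complex.normSq_apply, Complex.add_re, Complex.add_im,
    Complex.mul_re, Complex.mul_im, Complex.conj_re, Complex.conj_im]
  ring

theorem bd_blaschke {ψ J : ℂ⟦X⟧} (h : Bd 1 ψ) {c : ℂ} (hc : ‖c‖ ≤ 1)
    (hJ : (1 + C (conj c) * ψ) * J = 1) : Bd 1 ((ψ + C c) * J) := by
  intro N u
  set y := J * u with hy
  have e1 : (ψ + C c) * J * u = ψ * y + C c * y := by rw [hy]; ring
  have e2 : u = y + C (conj c) * (ψ * y) := by
    rw [hy]; linear_combination (-u) * hJ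
  have h1 : nq N (y + C (conj c) * (ψ * y)) - nq N (ψ * y + C c * y) =
      (1 - ‖c‖ ^ 2) * (nq N y - nq N (ψ * y)) := by
    simp only [nq, ← sum_sub_distrib, mul_sum, map_add, coeff_C_mul]
    exact sum_congr rfl fun n _ => key_pt _ _ _
  have h2 := h N y
  have h3 : ‖c‖ ^ 2 ≤ 1 := pow_le_one₀ (norm_nonneg _) hc
  rw [← e2] at h1
  rw [e1]
  nlinarith

theorem one_le_FF (W : ℝ) : 1 ≤ FF W := by
  unfold FF
  split_ifs with h
  · exact le_rfl
  · rw [le_div_iff₀ (by linarith)]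
    nlinarith [sq_nonneg (W - 1)]

theorem FF_of_one_le {W : ℝ} (h : 1 ≤ W) : FF W = (1 + W) ^ 2 / (4 * W) := by
  unfold FF
  split_ifs with h'
  · rw [le_antisymm h' h]; norm_num
  · rfl

theorem one_lt_FF {W : ℝ} (h : 1 < W) : 1 < FF W := by
  rw [FF_of_one_le h.le, lt_div_iff₀ (by linarith)]
  nlinarith [sq_pos_of_pos (sub_pos.mpr h)]

theorem FF_mono {V W : ℝ} (h : 1 ≤ V) (hVW : V ≤ W) : FF V ≤ FF W := by
  rw [FF_of_one_le h, FF_of_one_le (h.trans hVW), div_le_div_iff₀ (by linarith) (by linarith)]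
  have : 0 ≤ (W - V) * (V * W - 1) := mul_nonneg (by linarith) (by nlinarith)
  nlinarith

theorem FF_mul {V W : ℝ} (hV : 1 ≤ V) (hW : 1 ≤ W) : FF V * FF W ≤ FF (V * W) := by
  have h1 : 1 ≤ V * W := one_le_mul_of_one_le_of_one_le hV hW
  rw [FF_of_one_le hV, FF_of_one_le hW, FF_of_one_le h1, div_mul_div_comm,
    div_le_div_iff₀ (by positivity) (by positivity)]
  have h2 : (1 + V) * (1 + W) ≤ 2 * (1 + V * W) := by nlinarith
  have h3 := pow_le_pow_left₀ (by positivity) h2 2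
  have h4 : 0 ≤ V * W := by positivity
  nlinarith

theorem roots_loc {c w x : ℂ} (hc : ‖c‖ < 1) (h : x * (x + conj c) = w * (1 + c * x)) :
    (1 ≤ ‖w‖ → 1 ≤ ‖x‖) ∧ (‖w‖ ≤ 1 → ‖x‖ ≤ 1) := by
  have h1 := key_pt 1 x (conj (conj c))
  have h0 := key_pt x 1 (conj c)
  rw [Complex.conj_conj, mul_one, norm_one, Complex.norm_conj] at h0
  have h2 := congrArg (fun z : ℂ => ‖z‖ ^ 2) h
  simp only [norm_mul, mul_pow] at h2
  have hc2 : ‖c‖ ^ 2 < 1 := pow_lt_one₀ (norm_nonneg _) hc two_ne_zero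
  set A := ‖1 + c * x‖ ^ 2
  set B := ‖x + conj c‖ ^ 2
  have hA : 0 ≤ A := sq_nonneg _
  have hB : 0 ≤ B := sq_nonneg _
  constructor
  · intro hw
    by_contra hx
    push Not at hx
    have hx2 : ‖x‖ ^ 2 < 1 := pow_lt_one₀ (norm_nonneg _) hx two_ne_zero
    have hw2 : 1 ≤ ‖w‖ ^ 2 := one_le_pow₀ hw
    have h3 : 0 < (1 - ‖c‖ ^ 2) * (1 ^ 2 - ‖x‖ ^ 2) := mul_pos (by linarith) (by linarith)
    nlinarith [sq_nonneg ‖x‖]
  · intro hw
    by_contra hx
    push Not at hx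
    have hx2 : 1 < ‖x‖ ^ 2 := one_lt_pow₀ hx two_ne_zero
    have hw2 : ‖w‖ ^ 2 ≤ 1 := pow_le_one₀ (norm_nonneg _) hw
    have h3 : 0 < (1 - ‖c‖ ^ 2) * (‖x‖ ^ 2 - 1 ^ 2) := mul_pos (by linarith) (by linarith)
    nlinarith [sq_nonneg ‖w‖]

theorem exists_split {c : ℂ} (hc : ‖c‖ < 1) (w : ℂ) : ∃ x y : ℂ, x + y = w * c - conj c ∧
    x * y = -w ∧ FF ‖x‖ * FF ‖y‖ ≤ FF ‖w‖ := by
  obtain ⟨D, hD⟩ := IsAlgClosed.exists_pow_nat_eq ((w * c - conj c) ^ 2 + 4 * w) two_pos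
  have h1 : (w * c - conj c + D) / 2 + (w * c - conj c - D) / 2 = w * c - conj c := by ring
  have h2 : (w * c - conj c + D) / 2 * ((w * c - conj c - D) / 2) = -w := by
    linear_combination (-1 / 4) * hD
  refine ⟨_, _, h1, h2, ?_⟩
  set x := (w * c - conj c + D) / 2
  set y := (w * c - conj c - D) / 2
  have hx := roots_loc (w := w) (x := x) hc (by linear_combination x * h1 - h2)
  have hy := roots_loc (w := w) (x := y) hc (by linear_combination y * h1 - h2)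
  rcases le_total 1 ‖w‖ with hw | hw
  · have : ‖w‖ = ‖x‖ * ‖y‖ := by rw [← norm_mul, h2, norm_neg]
    rw [this]
    exact FF_mul (hx.1 hw) (hy.1 hw)
  · rw [FF, FF, if_pos (hx.2 hw), if_pos (hy.2 hw), one_mul]
    exact one_le_FF _

theorem norm_choose_half (n : ℕ) : ‖Ring.choose (1 / 2 : ℂ) n‖ ≤ 1 := by
  induction n with
  | zero => simp
  | succ n ih =>
    have h : Ring.choose (1 / 2 : ℂ) (n + 1) * (n + 1) = Ring.choose (1 / 2 : ℂ) n * (1 / 2 - n) := by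
      have h1 := Ring.descPochhammer_eq_factorial_smul_choose (1 / 2 : ℂ) (n + 1)
      have h2 := Ring.descPochhammer_eq_factorial_smul_choose (1 / 2 : ℂ) n
      rw [descPochhammer_succ_right, Polynomial.smeval_mul, h2] at h1
      have h3 : (n.factorial : ℂ) ≠ 0 := by exact_mod_cast n.factorial_ne_zero
      simp only [Polynomial.smeval_sub, Polynomial.smeval_X, pow_one, Polynomial.smeval_natCast,
        pow_zero, nsmul_eq_mul, mul_one, Nat.factorial_succ, Nat.cast_mul, Nat.cast_add,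
        Nat.cast_one] at h1
      apply mul_left_cancel₀ h3
      linear_combination -h1
    have h4 := congrArg (fun z : ℂ => ‖z‖) h
    simp only [norm_mul] at h4
    have h5 : ‖((n : ℂ) + 1)‖ = n + 1 := by exact_mod_cast Complex.norm_natCast (n + 1)
    have h6 : ‖(1 / 2 - n : ℂ)‖ ≤ n + 1 := by
      refine (norm_sub_le _ _).trans ?_
      simp only [norm_div, norm_one, Complex.norm_ofNat, Complex.norm_natCast]
      linarith
    rw [h5] at h4
    have h7 : (0 : ℝ) < n + 1 := by positivity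
    have h8 := mul_le_mul ih h6 (norm_nonneg _) zero_le_one
    nlinarith [norm_nonneg (Ring.choose (1 / 2 : ℂ) (n + 1))]

theorem exists_sqrt (w : ℂ) : ∃ s : ℂ⟦X⟧, constantCoeff s = 1 ∧ s ^ 2 = 1 - C w * X ∧
    ∀ n, ‖coeff n s‖ ≤ ‖w‖ ^ n := by
  refine ⟨rescale (-w) (binomialSeries ℂ (1 / 2 : ℂ)), ?_, ?_, fun n => ?_⟩
  · rw [← coeff_zero_eq_constantCoeff_apply, coeff_rescale]
    simp
  · rw [← map_pow, sq, ← binomialSeries_add]
    have : (1 / 2 + 1 / 2 : ℂ) = ((1 : ℕ) : ℂ) := by norm_num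
    rw [this, binomialSeries_nat, pow_one, map_add, map_one, rescale_X]
    simp [sub_eq_add_neg]
  · rw [coeff_rescale, binomialSeries_coeff, norm_mul, norm_pow, norm_neg, smul_eq_mul, mul_one]
    exact mul_le_of_le_one_right (by positivity) (norm_choose_half n)

theorem base_sqrt {r₀ r : ℝ} (h0 : 0 < r₀) (hr : r₀ < r) (Z : Multiset ℂ)
    (hZ : ∀ w ∈ Z, ‖w‖ ≤ r₀) : ∃ h : ℂ⟦X⟧, constantCoeff h = 1 ∧
      h ^ 2 = (Z.map fun w => 1 - C w * X).prod ∧ ∃ K : ℝ, 0 ≤ K ∧ ∀ n, ‖coeff n h‖ ≤ K * r ^ n := by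
  have hr0 : 0 < r := h0.trans hr
  induction Z using Multiset.induction_on with
  | empty =>
    refine ⟨1, by simp, by simp, 1 + 1 / r + 1, by positivity, fun n => ?_⟩
    rw [coeff_one]
    split_ifs with hn
    · subst hn
      have : 0 < 1 / r := by positivity
      simp only [norm_one, pow_zero]; linarith
    · rw [norm_zero]; positivity
  | cons w Z ih =>
    obtain ⟨h, h1, h2, K, hK0, hK⟩ := ih fun v hv => hZ v (Multiset.mem_cons_of_mem hv)
    obtain ⟨s, s1, s2, s3⟩ := exists_sqrt w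
    have hw := hZ w (Multiset.mem_cons_self _ _)
    have hq : r₀ / r < 1 := (div_lt_one hr0).mpr hr
    have hq0 : 0 ≤ r₀ / r := by positivity
    refine ⟨s * h, by simp [h1, s1], by rw [mul_pow, s2, h2]; simp, K * (1 - r₀ / r)⁻¹,
      mul_nonneg hK0 (inv_nonneg.mpr (by linarith)), fun n => ?_⟩
    rw [coeff_mul, Nat.sum_antidiagonal_eq_sum_range_succ (fun i j => coeff i s * coeff j h)]
    calc _ ≤ ∑ i ∈ range (n + 1), K * r ^ n * (r₀ / r) ^ i := by
          refine (norm_sum_le _ _).trans (sum_le_sum fun i hi => ?_)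
          have hi' : i ≤ n := Nat.lt_succ_iff.mp (mem_range.mp hi)
          rw [norm_mul]
          calc _ ≤ r₀ ^ i * (K * r ^ (n - i)) :=
                mul_le_mul ((s3 i).trans (pow_le_pow_left₀ (norm_nonneg _) hw i)) (hK _)
                  (norm_nonneg _) (by positivity)
            _ = _ := by
                obtain ⟨m, rfl⟩ := Nat.exists_eq_add_of_le hi'
                rw [Nat.add_sub_cancel_left, pow_add, div_pow]
                field_simp
      _ ≤ K * r ^ n * (1 - r₀ / r)⁻¹ := by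
          rw [← mul_sum]
          refine mul_le_mul_of_nonneg_left ?_ (by positivity)
          rw [← tsum_geometric_of_lt_one hq0 hq]
          exact (summable_geometric_of_lt_one hq0 hq).sum_le_tsum _ fun _ _ => by positivity
      _ = _ := by ring

theorem gr_of_coeff {r K : ℝ} (hr : 1 < r) {h : ℂ⟦X⟧} (hK : ∀ n, ‖coeff n h‖ ≤ K * r ^ n) :
    Gr r h := by
  have h1 : 1 < r ^ 2 := one_lt_pow₀ hr two_ne_zero
  refine ⟨K ^ 2 / (r ^ 2 - 1), div_nonneg (sq_nonneg _) (by linarith), fun N => ?_⟩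
  calc nq N h ≤ ∑ n ∈ range N, K ^ 2 * (r ^ 2) ^ n := by
        refine sum_le_sum fun n _ => ?_
        calc _ ≤ (K * r ^ n) ^ 2 := pow_le_pow_left₀ (norm_nonneg _) (hK n) 2
          _ = _ := by ring
    _ = K ^ 2 * (((r ^ 2) ^ N - 1) / (r ^ 2 - 1)) := by rw [← mul_sum, geom_sum_eq h1.ne']
    _ ≤ K ^ 2 * ((r ^ 2) ^ N / (r ^ 2 - 1)) := by
        gcongr
        linarith
    _ = _ := by ring

theorem one_le_prod_FF (Z : Multiset ℂ) : 1 ≤ (Z.map fun w => FF ‖w‖).prod := by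
  induction Z using Multiset.induction_on with
  | empty => simp
  | cons w Z ih =>
    rw [Multiset.map_cons, Multiset.prod_cons]
    exact one_le_mul_of_one_le_of_one_le (one_le_FF _) ih

theorem exists_pc {w₀ : ℂ} (hW1 : 1 < ‖w₀‖) : ∃ p c : ℂ, p * p = -w₀ ∧
    ‖c‖ ^ 2 * FF ‖w₀‖ = 1 ∧ ‖c‖ < 1 ∧ p + p = w₀ * c - conj c := by
  obtain ⟨p, hp⟩ := IsAlgClosed.exists_pow_nat_eq (-w₀) two_pos
  have hpW : ‖p‖ ^ 2 = ‖w₀‖ := by rw [← norm_pow, hp, norm_neg]
  generalize ‖w₀‖ = W at hW1 hpW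
  have hWc : (1 + W : ℂ) ≠ 0 := by exact_mod_cast (by linarith : (1 + W : ℝ) ≠ 0)
  have hpp : p * conj p = W := by
    rw [Complex.mul_conj, Complex.normSq_eq_norm_sq, hpW]
  have hcc : conj (-2 * conj p / (1 + W)) = -2 * p / (1 + W) := by
    simp only [map_div₀, map_mul, map_neg, map_add, map_one, Complex.conj_conj,
      Complex.conj_ofReal, map_ofNat]
  have hc2 : ‖-2 * conj p / (1 + W)‖ ^ 2 * FF W = 1 := by
    have : ‖(1 + W : ℂ)‖ = 1 + W := by
      have : ‖((1 + W : ℝ) : ℂ)‖ = 1 + W := by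
        rw [Complex.norm_real, Real.norm_eq_abs, abs_of_pos (by linarith)]
      exact_mod_cast this
    rw [FF_of_one_le hW1.le, norm_div, norm_mul, this, Complex.norm_conj, div_pow, mul_pow,
      hpW]
    have h2 : ‖(-2 : ℂ)‖ = 2 := by simp
    rw [h2]
    field_simp
    norm_num
  refine ⟨p, -2 * conj p / (1 + W), by rw [← sq, hp], hc2, ?_, ?_⟩
  · have hFW := one_lt_FF hW1
    by_contra hcon
    push Not at hcon
    have := one_le_pow₀ (n := 2) hcon
    nlinarith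
  · rw [hcc]
    field_simp
    linear_combination (2 * conj p) * hp - 2 * p * hpp

theorem bd_inv {ψ J : ℂ⟦X⟧} (h : Bd 1 ψ) {c : ℂ} (hc : ‖c‖ < 1)
    (hJ : (1 + C (conj c) * ψ) * J = 1) : ∃ K : ℝ, 0 ≤ K ∧ Bd K J := by
  have hB := bd_blaschke h hc.le hJ
  have hcn : (1 - ‖c‖ ^ 2 : ℝ) ≠ 0 := by
    have := pow_lt_one₀ (norm_nonneg _) hc two_ne_zero
    linarith
  have h2 : c * conj c = ((‖c‖ ^ 2 : ℝ) : ℂ) := by
    rw [Complex.mul_conj, Complex.normSq_eq_norm_sq]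
  have h3 : (1 - c * conj c) ≠ 0 := by rw [h2]; exact_mod_cast hcn
  have e : C (1 - c * conj c)⁻¹ * (1 - C (conj c) * ((ψ + C c) * J)) = J := by
    have h4 := congrArg (C (R := ℂ)) (inv_mul_cancel₀ h3)
    simp only [map_mul, map_sub, map_one] at h4
    linear_combination J * h4 - C (1 - c * conj c)⁻¹ * hJ
  have h5 := (bd_C (1 - c * conj c)⁻¹).mul (sq_nonneg _) (bd_lin hB (conj c))
  rw [e] at h5
  exact ⟨_, by positivity, h5⟩

theorem fac_eq {ψ J : ℂ⟦X⟧} {c : ℂ} (hJ : (1 + C (conj c) * ψ) * J = 1) {w a b : ℂ}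
    (h2 : a + b = w * c - conj c) (h3 : a * b = -w) :
    1 - C w * (ψ * ((ψ + C c) * J)) = (1 - C a * ψ) * (1 - C b * ψ) * J := by
  have h4 := congrArg (C (R := ℂ)) h2
  have h5 := congrArg (C (R := ℂ)) h3
  simp only [map_add, map_sub, map_mul, map_neg] at h4 h5
  linear_combination (-1) * hJ + ψ * J * h4 - ψ ^ 2 * J * h5

theorem ramified {r₀ r : ℝ} (h1 : 1 < r₀) (hr : r₀ < r) (n : ℕ) : ∀ Z : Multiset ℂ,
    (Z.map fun w => FF ‖w‖).prod ≤ FF r₀ ^ n → ∃ ψ h : ℂ⟦X⟧, constantCoeff ψ = 0 ∧ Bd 1 ψ ∧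
      1 ≤ ‖coeff 1 ψ‖ ^ 2 * (Z.map fun w => FF ‖w‖).prod ∧ constantCoeff h = 1 ∧
      h ^ 2 = (Z.map fun w => 1 - C w * ψ).prod ∧ Gr r h := by
  have base : ∀ Z : Multiset ℂ, (∀ w ∈ Z, ‖w‖ ≤ r₀) → ∃ ψ h : ℂ⟦X⟧, constantCoeff ψ = 0 ∧
      Bd 1 ψ ∧ 1 ≤ ‖coeff 1 ψ‖ ^ 2 * (Z.map fun w => FF ‖w‖).prod ∧ constantCoeff h = 1 ∧
      h ^ 2 = (Z.map fun w => 1 - C w * ψ).prod ∧ Gr r h := by
    intro Z hZ
    obtain ⟨h, h2, h3, K, -, hK⟩ := base_sqrt (by linarith) hr Z hZ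
    refine ⟨X, h, by simp, bd_X, ?_, h2, h3, gr_of_coeff (h1.trans hr) hK⟩
    simpa using one_le_prod_FF Z
  have hF := one_lt_FF h1
  induction n with
  | zero =>
    intro Z hZ
    refine base Z fun w hw => ?_
    by_contra hcon
    push Not at hcon
    obtain ⟨Z₁, rfl⟩ := Multiset.exists_cons_of_mem hw
    rw [Multiset.map_cons, Multiset.prod_cons, pow_zero] at hZ
    have h2 := one_le_prod_FF Z₁
    have h3 := FF_mono h1.le hcon.le
    nlinarith
  | succ n ih =>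
    intro Z hZ
    by_cases hall : ∀ w ∈ Z, ‖w‖ ≤ r₀
    · exact base Z hall
    push Not at hall
    obtain ⟨w₀, hw, hw₀⟩ := hall
    obtain ⟨Z₁, rfl⟩ := Multiset.exists_cons_of_mem hw
    rw [Multiset.map_cons, Multiset.prod_cons] at hZ
    have hW1 : 1 < ‖w₀‖ := h1.trans hw₀
    obtain ⟨p, c, hp, hc2, hc1, hsum⟩ := exists_pc hW1
    choose x y hxy1 hxy2 hxy3 using exists_split hc1
    obtain ⟨m, hm⟩ : ∃ m, m = Multiset.card Z₁ + 1 := ⟨_, rfl⟩
    obtain ⟨Z', hZ'⟩ : ∃ Z', Z' = Z₁.map x + Z₁.map y + Multiset.replicate m (-conj c) := ⟨_, rfl⟩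
    have hP : (Z'.map fun w => FF ‖w‖).prod ≤ (Z₁.map fun w => FF ‖w‖).prod := by
      have : FF ‖-conj c‖ = 1 := by rw [norm_neg, Complex.norm_conj, FF, if_pos hc1.le]
      rw [hZ', Multiset.map_add, Multiset.map_add, Multiset.prod_add, Multiset.prod_add,
        Multiset.map_replicate, Multiset.prod_replicate, this, one_pow, mul_one, Multiset.map_map,
        Multiset.map_map, ← Multiset.prod_map_mul]
      refine Multiset.prod_map_le_prod_map₀ _ _ (fun w _ => ?_) fun w _ => hxy3 w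
      exact mul_nonneg (zero_le_one.trans (one_le_FF _)) (zero_le_one.trans (one_le_FF _))
    have hP1 := one_le_prod_FF Z₁
    have hP2 : (Z₁.map fun w => FF ‖w‖).prod ≤ FF r₀ ^ n := by
      have h3 := FF_mono h1.le hw₀.le
      rw [pow_succ] at hZ
      have h4 : 0 < FF r₀ := by linarith
      refine le_of_mul_le_mul_right ?_ h4
      nlinarith
    obtain ⟨ψ, h, hψ0, hψ, hρ, hh0, hh, hgr⟩ := ih Z' (hP.trans hP2)
    obtain ⟨J, hJ⟩ : ∃ J, (1 + C (conj c) * ψ) * J = 1 :=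
      ⟨_, PowerSeries.mul_inv_cancel _ (by simp [hψ0])⟩
    have hJ0 : constantCoeff J = 1 := by
      have := congrArg constantCoeff hJ
      simpa [hψ0] using this
    have hB := bd_blaschke hψ hc1.le hJ
    obtain ⟨K, hK0, hK⟩ := bd_inv hψ hc1 hJ
    refine ⟨ψ * ((ψ + C c) * J), (1 - C p * ψ) * (J ^ m * h), by simp [hψ0], ?_, ?_, ?_, ?_, ?_⟩
    · simpa using hψ.mul zero_le_one hB
    · have e : coeff 1 (ψ * ((ψ + C c) * J)) = coeff 1 ψ * c := by
        rw [coeff_mul, Nat.antidiagonal_succ]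
        simp [hψ0, hJ0]
      rw [e, Multiset.map_cons, Multiset.prod_cons, norm_mul, mul_pow]
      have h2 := mul_le_mul_of_nonneg_left hP (sq_nonneg ‖coeff 1 ψ‖)
      calc 1 ≤ ‖coeff 1 ψ‖ ^ 2 * (Z₁.map fun w => FF ‖w‖).prod := hρ.trans h2
        _ = ‖coeff 1 ψ‖ ^ 2 * (‖c‖ ^ 2 * FF ‖w₀‖) * (Z₁.map fun w => FF ‖w‖).prod := by
            rw [hc2, mul_one]
        _ = _ := by ring
    · simp [hψ0, hJ0, hh0]
    · rw [Multiset.map_cons, Multiset.prod_cons, fac_eq hJ hsum hp,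
        Multiset.map_congr rfl fun w _ => fac_eq hJ (hxy1 w) (hxy2 w),
        Multiset.prod_map_mul, Multiset.prod_map_mul, Multiset.map_const', Multiset.prod_replicate,
        mul_pow, mul_pow, hh, hZ', Multiset.map_add, Multiset.map_add, Multiset.prod_add,
        Multiset.prod_add, Multiset.map_replicate, Multiset.prod_replicate, Multiset.map_map,
        Multiset.map_map]
      have h2 : ((1 - C (-conj c) * ψ) * J) ^ m = 1 := by
        rw [map_neg, neg_mul, sub_neg_eq_add, hJ, one_pow]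
      rw [mul_pow] at h2
      simp only [Function.comp_def]
      have h3 : J ^ m = J ^ Multiset.card Z₁ * J := by rw [hm, pow_succ]
      generalize (Z₁.map fun w => 1 - C (x w) * ψ).prod = A
      generalize (Z₁.map fun w => 1 - C (y w) * ψ).prod = B
      linear_combination (1 - C p * ψ) ^ 2 * A * B * J ^ m * h2 + (1 - C p * ψ) ^ 2 * A * B * h3
    · exact Gr.mul (by positivity) (bd_lin hψ p) (Gr.mul (pow_nonneg hK0 m) (hK.pow hK0 m) hgr)

end Pool.Agent.Lib.MP_f61260_nt.L2
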