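import Pool.Agent.Lib.MP_f61260_nt.L2.Desc

/-! From the orbit form to the form with an irreducible polynomial. -/

set_option autoImplicit false

namespace Pool.Agent.Lib.MP_f61260_nt.L2

open Polynomial

theorem br_gauss {L : Type} [Field L] {v : AbsoluteValue L ℝ} (hv : IsNonarchimedean v)
    (s : Multiset L) (a : L) :
    v a * (s.map fun b => max 1 (v b)).prod ≤ (C a * (s.map fun b => X - C b).prod).gaussNorm v 1 := by
  induction s using Multiset.induction_on with
  | empty => simp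
  | cons b s ih =>
    rw [Multiset.map_cons, Multiset.prod_cons, Multiset.map_cons, Multiset.prod_cons,
      mul_left_comm (C a), gaussNorm_mul hv one_pos, mul_left_comm]
    refine mul_le_mul (max_le ?_ ?_) ih (mul_nonneg (v.nonneg _) (Multiset.prod_nonneg fun x hx => ?_))
      (gaussNorm_nonneg _ _ zero_le_one)
    · have k := le_gaussNorm v (X - C b) zero_le_one 1
      rwa [coeff_sub, coeff_X_one, coeff_C_of_ne_zero one_ne_zero, sub_zero, map_one, one_pow,
        mul_one] at k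
    · have k := le_gaussNorm v (X - C b) zero_le_one 0
      rwa [coeff_sub, coeff_X_zero, coeff_C_zero, zero_sub, v.map_neg, pow_zero, mul_one] at k
    · obtain ⟨y, -, rfl⟩ := Multiset.mem_map.1 hx
      exact zero_le_one.trans (le_max_left _ _)

theorem br_fib {L : Type} [Field L] [NumberField L] [DecidableEq L] (α : L) :
    ∀ β ∈ Finset.univ.image fun σ : L ≃ₐ[ℚ] L => σ α,
      (Finset.univ.filter fun σ : L ≃ₐ[ℚ] L => σ α = β).card =
        (Finset.univ.filter fun σ : L ≃ₐ[ℚ] L => σ α = α).card := by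
  intro β hβ
  obtain ⟨τ, -, rfl⟩ := Finset.mem_image.1 hβ
  refine (Finset.card_equiv (Equiv.mulLeft τ) fun σ => ?_).symm
  simp

theorem br_orbit {L : Type} [Field L] [NumberField L] [IsGalois ℚ L] [DecidableEq L] {α : L}
    {g : ℚ[X]} (hg : Irreducible g) (h : aeval α g = 0) :
    (g.map (algebraMap ℚ L)).Splits ∧
      (Finset.univ.image fun σ : L ≃ₐ[ℚ] L => σ α).val = (g.map (algebraMap ℚ L)).roots := by
  have e := minpoly.eq_of_irreducible hg h
  have h0 : g.map (algebraMap ℚ L) ≠ 0 := Polynomial.map_ne_zero hg.ne_zero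
  have hl : g.leadingCoeff ≠ 0 := leadingCoeff_ne_zero.2 hg.ne_zero
  have e2 : g = minpoly ℚ α * C g.leadingCoeff := by
    rw [← e, mul_assoc, ← C_mul, inv_mul_cancel₀ hl, C_1, mul_one]
  refine ⟨?_, (Multiset.Nodup.ext (Finset.nodup _) (nodup_roots hg.separable.map)).2 fun β => ?_⟩
  · rw [e2, Polynomial.map_mul, map_C]
    exact (Normal.splits inferInstance α).mul (Splits.C _)
  · rw [mem_roots h0, IsRoot.def, eval_map_algebraMap, ← Finset.mem_def, Finset.mem_image]
    refine ⟨fun ⟨σ, _, k⟩ => by rw [← k, aeval_algHom_apply, h, map_zero], fun k => ?_⟩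
    obtain ⟨σ, hσ⟩ := minpoly.exists_algEquiv_of_root' (Algebra.IsAlgebraic.isAlgebraic α)
      (x := β) (by rw [← e, map_mul, k, zero_mul])
    exact ⟨σ, Finset.mem_univ _, hσ⟩

theorem br_level (s : Finset ℂ)
    (hs : ∀ x ∈ s, x ∈ IntermediateField.adjoin ℚ {z : ℂ | ∃ n : ℕ, 1 ≤ n ∧ z ^ n = 1}) :
    ∃ N : ℕ, 0 < N ∧ ∀ x ∈ s, x ∈ IntermediateField.adjoin ℚ {z : ℂ | z ^ N = 1} := by
  classical
  choose! T h1 h2 using fun x hx => IntermediateField.exists_finset_of_mem_adjoin (hs x hx)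
  have h3 : ∀ t ∈ s.biUnion T, ∃ n : ℕ, 1 ≤ n ∧ t ^ n = 1 := fun t ht => by
    obtain ⟨x, hx, k⟩ := Finset.mem_biUnion.1 ht
    exact h1 x hx k
  choose! n n1 n2 using h3
  refine ⟨∏ t ∈ s.biUnion T, n t, Finset.prod_pos n1, fun x hx =>
    IntermediateField.adjoin.mono _ _ _ (fun t ht => ?_) (h2 x hx)⟩
  have k : t ∈ s.biUnion T := Finset.mem_biUnion.2 ⟨x, hx, ht⟩
  obtain ⟨c, hc⟩ := Finset.dvd_prod_of_mem n k
  show t ^ _ = 1
  rw [hc, pow_mul, n2 t k, one_pow]

theorem br_card (L : IntermediateField ℚ ℂ) [NumberField L] [DecidableEq L] {N : ℕ} (hN : 0 < N)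
    {ζ α : L} (hζ : IsPrimitiveRoot (ζ : ℂ) N) {P : ℂ[X]} (hP : P ≠ 0) (hα : P.eval (α : ℂ) = 0)
    (hc : ∀ i, P.coeff i ∈ IntermediateField.adjoin ℚ {z : ℂ | z ^ N = 1}) :
    ((Finset.univ.filter fun σ : L ≃ₐ[ℚ] L => σ ζ = ζ).image fun σ => σ α).card ≤ P.natDegree := by
  have : NeZero N := ⟨hN.ne'⟩
  have h1 : IntermediateField.adjoin ℚ {z : ℂ | z ^ N = 1} ≤
      (IntermediateField.fixedField (MulAction.stabilizer (L ≃ₐ[ℚ] L) ζ)).map L.val :=
    IntermediateField.adjoin_le_iff.2 fun z hz => by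
      obtain ⟨i, -, rfl⟩ := hζ.eq_pow_of_pow_eq_one hz
      refine SetLike.mem_coe.2 (pow_mem ?_ i)
      exact ⟨ζ, fun σ => σ.2, rfl⟩
  choose y y1 y2 using fun i => h1 (hc i)
  obtain ⟨Q, hQ⟩ := (mem_lifts (f := algebraMap L ℂ) P).1
    ((lifts_iff_coeff_lifts P).2 fun i => ⟨y i, y2 i⟩)
  have h2 : ∀ i, Q.coeff i = y i := fun i =>
    (algebraMap L ℂ).injective (by rw [← coeff_map, hQ]; exact (y2 i).symm)
  have h0 : Q ≠ 0 := fun e => hP (by rw [← hQ, e, Polynomial.map_zero])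
  have h3 : Q.eval α = 0 := (algebraMap L ℂ).injective (by
    rw [← eval₂_at_apply, ← eval_map, hQ, map_zero]; exact hα)
  rw [← hQ, natDegree_map]
  refine le_trans (Finset.card_le_card fun β hβ => ?_)
    ((Multiset.toFinset_card_le Q.roots).trans (card_roots' Q))
  obtain ⟨σ, hσ, rfl⟩ := Finset.mem_image.1 hβ
  have h4 : Q.map (σ : L →+* L) = Q := Polynomial.ext fun i => by
    rw [coeff_map, h2]
    exact y1 i ⟨σ, (Finset.mem_filter.1 hσ).2⟩
  rw [Multiset.mem_toFinset, mem_roots h0, IsRoot.def, ← h4, eval_map]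
  exact (eval₂_at_apply (σ : L →+* L) α).trans (by rw [h3, map_zero])

theorem l2_main :
    ∀ α : ℂ, α ≠ 0 → (∀ n : ℕ, 1 ≤ n → α ^ n ≠ 1) →
      ∀ f : Polynomial ℤ, Irreducible f → Polynomial.aeval α f = 0 →
      ∀ D : ℕ, D = (minpoly (IntermediateField.adjoin ℚ
          {z : ℂ | ∃ n : ℕ, 1 ≤ n ∧ z ^ n = 1}) α).natDegree →
        1 / (64 * (D : ℝ) ^ 2) ≤ (Real.log |(f.leadingCoeff : ℝ)| +
          ((f.map (Int.castRingHom ℂ)).roots.map fun z =>
            min (Real.log (max 1 ‖z‖)) (Real.log (max 1 ‖z‖) ^ 2)).sum) / (f.natDegree : ℝ) := by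
  classical
  intro α h0 ht f hf hα D hD
  have hn : f.natDegree ≠ 0 := fun e => by
    rw [eq_C_of_natDegree_eq_zero e, aeval_C, eq_intCast, Int.cast_eq_zero] at hα
    exact hf.ne_zero (by rw [eq_C_of_natDegree_eq_zero e, hα, C_0])
  have hg := (IsPrimitive.Int.irreducible_iff_irreducible_map_cast (hf.isPrimitive hn)).1 hf
  set g := f.map (Int.castRingHom ℚ) with eg
  have hgα : aeval α g = 0 := (aeval_map_algebraMap ℚ α f).trans hα
  set K := IntermediateField.adjoin ℚ {z : ℂ | ∃ n : ℕ, 1 ≤ n ∧ z ^ n = 1}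
  have hi : IsIntegral K α := (IsAlgebraic.isIntegral ⟨g, hg.ne_zero, hgα⟩).tower_top
  set P := (minpoly K α).map (algebraMap K ℂ) with eP
  obtain ⟨N, hN, hc⟩ := br_level (insert 0 P.coeffs) fun x hx => by
    rcases Finset.mem_insert.1 hx with rfl | hx
    · exact zero_mem _
    · obtain ⟨i, -, rfl⟩ := mem_coeffs_iff.1 hx
      rw [eP, coeff_map]
      exact Subtype.property _
  have hζ := Complex.isPrimitiveRoot_exp N hN.ne'
  set ζ := Complex.exp (2 * Real.pi * Complex.I / N)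
  have hX : (X ^ N - C 1 : ℚ[X]) ≠ 0 := X_pow_sub_C_ne_zero hN 1
  set L := IntermediateField.adjoin ℚ ((g * (X ^ N - C 1)).rootSet ℂ)
  have : IsSplittingField ℚ L (g * (X ^ N - C 1)) :=
    IntermediateField.adjoin_rootSet_isSplittingField (IsAlgClosed.splits _)
  have := IsSplittingField.finiteDimensional L (g * (X ^ N - C 1))
  have : NumberField L := {}
  have := Normal.of_isSplittingField (E := L) (g * (X ^ N - C 1))
  have : IsGalois ℚ L := {}
  have m : ∀ z : ℂ, aeval z (g * (X ^ N - C 1)) = 0 → z ∈ L := fun z hz =>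
    IntermediateField.subset_adjoin _ _ ((mem_rootSet_of_ne (mul_ne_zero hg.ne_zero hX)).2 hz)
  let a : L := ⟨α, m α (by rw [map_mul, hgα, zero_mul])⟩
  let z : L := ⟨ζ, m ζ (by simp [hζ.pow_eq_one])⟩
  have hP : P ≠ 0 := Polynomial.map_ne_zero (minpoly.ne_zero hi)
  have c1 := br_card L hN (ζ := z) (α := a) hζ hP
    ((eval_map_algebraMap _ _).trans (minpoly.aeval K α)) fun i => by
      by_cases e : P.coeff i = 0
      · exact e ▸ zero_mem _
      · exact hc _ (Finset.mem_insert_of_mem (coeff_mem_coeffs e))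
  rw [eP, natDegree_map, ← hD] at c1
  obtain ⟨o1, o2⟩ := br_orbit (α := a) hg ((algebraMap L ℂ).injective (by
    rw [← aeval_algebraMap_apply, map_zero]; exact hgα))
  have e1 : g.map (algebraMap ℚ L) = f.map (Int.castRingHom L) := by
    rw [eg, Polynomial.map_map]
    exact congrArg f.map (RingHom.ext_int _ _)
  rw [e1] at o1 o2
  have hb := br_fib a
  set O := Finset.univ.image fun σ : L ≃ₐ[ℚ] L => σ a
  set s := (Finset.univ.filter fun σ : L ≃ₐ[ℚ] L => σ a = a).card
  have hs : 0 < s := Finset.card_pos.2 ⟨1, by simp⟩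
  have hl : f.leadingCoeff ≠ 0 := leadingCoeff_ne_zero.2 hf.ne_zero
  have hO : O.card = f.natDegree := by
    rw [Finset.card_def, o2, ← o1.natDegree_eq_card_roots,
      natDegree_map_eq_of_injective (RingHom.injective_int _)]
  have hG : Module.finrank ℚ L = f.natDegree * s := by
    rw [← IsGalois.card_aut_eq_finrank, Nat.card_eq_fintype_card, ← Finset.card_univ,
      Finset.card_eq_sum_card_image (fun σ : L ≃ₐ[ℚ] L => σ a), Finset.sum_congr rfl hb,
      Finset.sum_const, hO, smul_eq_mul]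
  have key := core L (algebraMap L ℂ) D N hN z (hζ.of_map_of_injective (f := algebraMap L ℂ)
    (algebraMap L ℂ).injective) a (fun e => h0 (congrArg Subtype.val e))
    (fun n h e => ht n h (congrArg Subtype.val e)) c1 (f.leadingCoeff ^ s) (pow_ne_zero _ hl)
    fun v hv => by
      rw [Finset.prod_comp (fun β => max 1 (v β)) (fun σ : L ≃ₐ[ℚ] L => σ a),
        Finset.prod_congr rfl fun β h => by rw [hb β h], Finset.prod_pow, Int.cast_pow, map_pow,
        ← mul_pow]
      refine pow_le_one₀ (mul_nonneg (v.nonneg _) (Finset.prod_nonneg fun _ _ =>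
        zero_le_one.trans (le_max_left _ _))) ?_
      have k := br_gauss hv (f.map (Int.castRingHom L)).roots (f.map (Int.castRingHom L)).leadingCoeff
      obtain ⟨i, hi⟩ := exists_eq_gaussNorm v 1 (f.map (Int.castRingHom L))
      rw [← o1.eq_prod_roots, hi, coeff_map, one_pow, mul_one, ← o2,
        leadingCoeff_map_of_injective (RingHom.injective_int _)] at k
      exact k.trans hv.apply_intCast_le_one
  have e2 : f.map (Int.castRingHom ℂ) = (f.map (Int.castRingHom L)).map (algebraMap L ℂ) := by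
    rw [Polynomial.map_map]
    exact congrArg f.map (RingHom.ext_int _ _)
  rw [Finset.sum_comp (fun β => min (Real.posLog ‖algebraMap L ℂ β‖)
      (Real.posLog ‖algebraMap L ℂ β‖ ^ 2)) (fun σ : L ≃ₐ[ℚ] L => σ a),
    Finset.sum_congr rfl fun β h => by rw [hb β h], ← Finset.smul_sum, hG, Int.cast_pow, abs_pow,
    Real.log_pow, nsmul_eq_mul, ← mul_add, Nat.cast_mul] at key
  rw [e2, o1.roots_map, ← o2, Multiset.map_map, le_div_iff₀ (Nat.cast_pos.2 (Nat.pos_of_ne_zero hn))]
  simp only [Real.posLog_eq_log_max_one (norm_nonneg _)] at key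
  refine le_of_mul_le_mul_left (le_trans (le_of_eq (by ring)) key) (Nat.cast_pos.2 hs)

end Pool.Agent.Lib.MP_f61260_nt.L2
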