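import Mathlib

/-!
Minors of a family of power series and their behaviour under substitution.
-/

set_option autoImplicit false

noncomputable section

namespace Pool.Agent.Lib.MP_f61260_nt.L2

open Finset PowerSeries

variable {L : Type*} [Field L] {ι : Type*} [Fintype ι] [DecidableEq ι]

/-- The matrix of the coefficients of orders `n k`. -/
def mx (f : ι → L⟦X⟧) (n : ι → ℕ) : Matrix ι ι L := Matrix.of fun k i => coeff (n k) (f i)

theorem exists_minor (f : ι → L⟦X⟧) (hf : LinearIndependent L f) :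
    ∃ n, (mx f n).det ≠ 0 := by
  let v : ℕ → ι → L := fun m i => coeff m (f i)
  have hspan : Submodule.span L (Set.range v) = ⊤ := by
    by_contra hne
    obtain ⟨φ, hφ0, hφ⟩ := Submodule.exists_dual_map_eq_bot_of_lt_top (lt_top_iff_ne_top.mpr hne)
      inferInstance
    have h1 : ∀ m, φ (v m) = 0 := fun m => by
      have : φ (v m) ∈ (Submodule.span L (Set.range v)).map φ :=
        Submodule.mem_map_of_mem (Submodule.subset_span ⟨m, rfl⟩)
      rwa [hφ, Submodule.mem_bot] at this
    have h2 : ∀ x : ι → L, φ x = ∑ i, x i * φ (Pi.single i 1) := fun x => by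
      conv_lhs => rw [pi_eq_sum_univ' x]
      simp only [map_sum, map_smul, smul_eq_mul]
    have h3 := Fintype.linearIndependent_iff.mp hf (fun i => φ (Pi.single i 1)) (by
      ext m
      rw [map_sum, map_zero, ← h1 m, h2]
      exact sum_congr rfl fun i _ => by simp [v, mul_comm])
    exact hφ0 (LinearMap.ext fun x => by simp [h2 x, h3])
  obtain ⟨κ, a, -, h1, h2⟩ := exists_linearIndependent' L v
  have hfin : Finite κ := h2.finite
  have := Fintype.ofFinite κ
  have hcard : Fintype.card ι = Fintype.card κ := by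
    have h3 := finrank_span_eq_card h2
    rw [h1, hspan, finrank_top, Module.finrank_fintype_fun_eq_card] at h3
    exact h3
  let e := Fintype.equivOfCardEq hcard
  refine ⟨a ∘ e, ?_⟩
  have h4 : LinearIndependent L (mx f (a ∘ e)).row := h2.comp e e.injective
  rw [Matrix.linearIndependent_rows_iff_isUnit, Matrix.isUnit_iff_isUnit_det] at h4
  exact h4.ne_zero

theorem exists_min_minor (f : ι → L⟦X⟧) (hf : LinearIndependent L f) :
    ∃ n, (mx f n).det ≠ 0 ∧ ∀ n', (∀ k, n' k ≤ n k) → n' ≠ n → (mx f n').det = 0 := by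
  classical
  have hex : ∃ s, ∃ n, (mx f n).det ≠ 0 ∧ ∑ k, n k = s := by
    obtain ⟨n, hn⟩ := exists_minor f hf
    exact ⟨_, n, hn, rfl⟩
  obtain ⟨n, hn, hs⟩ := Nat.find_spec hex
  refine ⟨n, hn, fun n' hle hne => ?_⟩
  by_contra hcon
  have h1 := Nat.find_min' hex ⟨n', hcon, rfl⟩
  obtain ⟨k, hk⟩ := Function.ne_iff.mp hne
  have h2 : ∑ k, n' k < ∑ k, n k :=
    sum_lt_sum (fun k _ => hle k) ⟨k, mem_univ _, lt_of_le_of_ne (hle k) hk⟩
  omega

theorem sum_ge_card (c : ℕ) : ∀ s : Finset ℕ, s.card = c → c * c ≤ 2 * ∑ i ∈ s, i + c := by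
  induction c with
  | zero => intro s _; simp
  | succ c ih =>
    intro s hs
    have hne : s.Nonempty := card_pos.mp (by omega)
    have h1 := ih (s.erase (s.max' hne)) (by rw [card_erase_of_mem (max'_mem _ _)]; omega)
    have h2 := add_sum_erase s (fun i => i) (max'_mem s hne)
    have h3 : s.card ≤ s.max' hne + 1 := by
      rw [← card_range (s.max' hne + 1)]
      exact card_le_card fun i hi => mem_range.mpr (Nat.lt_succ_of_le (le_max' s i hi))
    nlinarith

theorem sum_ge_of_det (f : ι → L⟦X⟧) {n : ι → ℕ} (hn : (mx f n).det ≠ 0) :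
    Fintype.card ι * Fintype.card ι ≤ 2 * ∑ k, n k + Fintype.card ι := by
  have hinj : Function.Injective n := fun a b hab => by
    by_contra hne
    exact hn (Matrix.det_zero_of_row_eq hne (by ext i; simp [mx, hab]))
  have h := sum_ge_card _ (univ.image n) (by rw [card_image_of_injective _ hinj, card_univ])
  rwa [sum_image fun a _ b _ hab => hinj hab] at h

theorem coeff_pow_self {φ : ℂ⟦X⟧} (h : constantCoeff φ = 0) (m : ℕ) :
    coeff m (φ ^ m) = coeff 1 φ ^ m := by
  obtain ⟨χ, rfl⟩ := X_dvd_iff.mpr h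
  have e : coeff 1 (X * χ) = constantCoeff χ := by simp
  have := coeff_X_pow_mul (χ ^ m) m 0
  rw [zero_add] at this
  rw [mul_pow, this, e, coeff_zero_eq_constantCoeff_apply, map_pow]

theorem coeff_subst_sum {φ : ℂ⟦X⟧} (h : constantCoeff φ = 0) (u : ℂ⟦X⟧) (n : ℕ) :
    coeff n (u.subst φ : ℂ⟦X⟧) = ∑ m ∈ range (n + 1), coeff n (φ ^ m) * coeff m u := by
  rw [coeff_subst' (HasSubst.of_constantCoeff_zero' h),
    finsum_eq_sum_of_support_subset (s := range (n + 1))]
  · exact sum_congr rfl fun m _ => by rw [smul_eq_mul, mul_comm]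
  · intro m hm
    by_contra hcon
    have h1 : n < m := by simpa using hcon
    exact hm (by
      beta_reduce
      rw [X_pow_dvd_iff.mp (pow_dvd_pow_of_dvd (X_dvd_iff.mpr h) m) n h1, smul_zero])

theorem det_subst (e : L →+* ℂ) {φ : ℂ⟦X⟧} (h : constantCoeff φ = 0) (f : ι → L⟦X⟧)
    {n : ι → ℕ} (hmin : ∀ n', (∀ k, n' k ≤ n k) → n' ≠ n → (mx f n').det = 0) :
    (mx (fun i => ((map e (f i)).subst φ : ℂ⟦X⟧)) n).det =
      coeff 1 φ ^ (∑ k, n k) * e (mx f n).det := by
  have e1 : mx (fun i => ((map e (f i)).subst φ : ℂ⟦X⟧)) n = fun k =>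
      ∑ m ∈ range (n k + 1), coeff (n k) (φ ^ m) • fun i => e (coeff m (f i)) := by
    ext k i
    simp [mx, coeff_subst_sum h, coeff_map]
  have e2 : ∀ r : ι → ℕ, (Matrix.detRowAlternating (R := ℂ) (n := ι)).toMultilinearMap
      (fun k => coeff (n k) (φ ^ r k) • fun i => e (coeff (r k) (f i))) =
      (∏ k, coeff (n k) (φ ^ r k)) * e (mx f r).det := by
    intro r
    rw [MultilinearMap.map_smul_univ, smul_eq_mul, RingHom.map_det]
    rfl
  have e3 := (Matrix.detRowAlternating (R := ℂ) (n := ι)).toMultilinearMap.map_sum_finset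
    (fun k m => coeff (n k) (φ ^ m) • fun i => e (coeff m (f i))) fun k => range (n k + 1)
  rw [e1]
  refine e3.trans ?_
  rw [sum_eq_single_of_mem n (by simp)]
  · rw [e2, ← prod_pow_eq_pow_sum]
    simp only [coeff_pow_self h]
  · intro r hr hne
    rw [e2, hmin r (fun k => Nat.lt_succ_iff.mp (mem_range.mp (Fintype.mem_piFinset.mp hr k))) hne,
      map_zero, mul_zero]

theorem norm_det_le (A : Matrix ι ι ℂ) (a b : ι → ℝ) (h : ∀ k i, ‖A k i‖ ≤ a k * b i) :
    ‖A.det‖ ≤ (Fintype.card ι).factorial * ((∏ k, a k) * ∏ i, b i) := by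
  rw [Matrix.det_apply']
  refine (norm_sum_le _ _).trans ?_
  rw [← Fintype.card_perm, ← card_univ, ← nsmul_eq_mul, ← sum_const]
  refine sum_le_sum fun σ _ => ?_
  have h1 : ‖((Equiv.Perm.sign σ : ℤ) : ℂ)‖ = 1 := by
    rcases Int.units_eq_one_or (Equiv.Perm.sign σ) with h | h <;> simp [h]
  rw [norm_mul, h1, one_mul, norm_prod, ← Equiv.prod_comp σ a, ← prod_mul_distrib]
  exact prod_le_prod (fun _ _ => norm_nonneg _) fun i _ => h _ _

theorem abv_det_le (v : AbsoluteValue L ℝ) (hv : IsNonarchimedean v) (A : Matrix ι ι L)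
    (a : ι → ℝ) (ha : ∀ k, 0 ≤ a k) (h : ∀ k i, v (A k i) ≤ a k) : v A.det ≤ ∏ k, a k := by
  rw [Matrix.det_apply']
  refine sum_induction _ (fun x => v x ≤ ∏ k, a k) (fun x y hx hy => (hv x y).trans (max_le hx hy))
    (by rw [map_zero]; exact prod_nonneg fun k _ => ha k) fun σ _ => ?_
  have h1 : v ((Equiv.Perm.sign σ : ℤ) : L) = 1 := by
    rcases Int.units_eq_one_or (Equiv.Perm.sign σ) with h | h <;> simp [h]
  rw [map_mul, h1, one_mul, map_prod, ← Equiv.prod_comp σ a]
  exact prod_le_prod (fun _ _ => v.nonneg _) fun i _ => h _ _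

theorem count_roots [DecidableEq L] {a : L} (ha : a ≠ 0) (Z : Multiset L) :
    (Z.map fun b => (1 - Polynomial.C b * Polynomial.X : Polynomial L)).prod ≠ 0 ∧
    (Z.map fun b => (1 - Polynomial.C b * Polynomial.X : Polynomial L)).prod.roots.count a⁻¹ =
      Z.count a := by
  induction Z using Multiset.induction_on with
  | empty => simp
  | cons b Z ih =>
    have h0 : (1 - Polynomial.C b * Polynomial.X : Polynomial L) ≠ 0 := fun h => by
      simpa using congrArg (Polynomial.eval 0) h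
    rw [Multiset.map_cons, Multiset.prod_cons]
    refine ⟨mul_ne_zero h0 ih.1, ?_⟩
    rw [Polynomial.roots_mul (mul_ne_zero h0 ih.1), Multiset.count_add, ih.2,
      Multiset.count_cons, add_comm]
    congr 1
    by_cases hb : b = 0
    · subst hb
      simp [ha]
    · have e : (1 - Polynomial.C b * Polynomial.X : Polynomial L) =
          Polynomial.C (-b) * (Polynomial.X - Polynomial.C b⁻¹) := by
        rw [mul_sub, ← Polynomial.C_mul, neg_mul, mul_inv_cancel₀ hb]
        simp only [map_neg, map_one]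
        ring
      rw [e, Polynomial.roots_C_mul _ (neg_ne_zero.mpr hb), Polynomial.roots_X_sub_C,
        Multiset.count_singleton]
      simp only [inv_inj]

/-- The rows. -/
def rows (g : L⟦X⟧) (d : ℕ) (i : Fin d × Fin 2) : L⟦X⟧ := X ^ (i.1 : ℕ) * g ^ (i.2 : ℕ)

theorem rows_indep [DecidableEq L] {g : L⟦X⟧} {Z : Multiset L}
    (hg : g ^ 2 = (Z.map fun a => 1 - C a * X).prod) (hodd : ∃ a, a ≠ 0 ∧ Odd (Z.count a))
    (d : ℕ) : LinearIndependent L (rows g d) := by
  obtain ⟨a, ha, hodd⟩ := hodd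
  rw [Fintype.linearIndependent_iff]
  intro c hc
  let p : Fin 2 → Polynomial L := fun e => ∑ j : Fin d, Polynomial.monomial j (c (j, e))
  have hp : ∀ e, (p e : L⟦X⟧) = ∑ j : Fin d, c (j, e) • X ^ (j : ℕ) := fun e => by
    rw [← Polynomial.coeToPowerSeries.ringHom_apply, map_sum]
    refine sum_congr rfl fun j _ => ?_
    rw [Polynomial.coeToPowerSeries.ringHom_apply, Polynomial.coe_monomial, X_pow_eq,
      ← map_smul, smul_eq_mul, mul_one]
  have hpc : ∀ e j, (p e).coeff (j : Fin d) = c (j, e) := fun e j => by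
    simp only [p, Polynomial.finsetSum_coeff, Polynomial.coeff_monomial, Fin.val_inj]
    simp
  have h1 : (p 0 : L⟦X⟧) + p 1 * g = 0 := by
    rw [← hc, Fintype.sum_prod_type, hp, hp, sum_mul, ← sum_add_distrib]
    refine sum_congr rfl fun j _ => ?_
    simp [rows, Fin.sum_univ_two]
  obtain ⟨hA0, hA⟩ := count_roots ha Z
  set A := (Z.map fun b => (1 - Polynomial.C b * Polynomial.X : Polynomial L)).prod with hAdef
  have hgA : g ^ 2 = (A : L⟦X⟧) := by
    rw [hg, ← Polynomial.coeToPowerSeries.ringHom_apply, hAdef, map_multiset_prod,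
      Multiset.map_map]
    simp
  have h2 : p 0 * p 0 = p 1 * p 1 * A := by
    apply Polynomial.coe_injective L
    simp only [Polynomial.coe_mul]
    rw [← hgA]
    linear_combination ((p 0 : L⟦X⟧) - p 1 * g) * h1
  have h3 : p 1 = 0 := by
    by_contra hq
    have h4 : p 1 * p 1 * A ≠ 0 := mul_ne_zero (mul_ne_zero hq hq) hA0
    have h5 := congrArg (fun q => q.roots.count a⁻¹) h2
    rw [Polynomial.roots_mul (h2 ▸ h4), Polynomial.roots_mul h4,
      Polynomial.roots_mul (mul_ne_zero hq hq)] at h5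
    simp only [Multiset.count_add] at h5
    obtain ⟨t, ht⟩ := hodd
    omega
  have h4 : p 0 = 0 := by
    rw [h3, zero_mul, zero_mul, mul_self_eq_zero] at h2
    exact h2
  rintro ⟨j, e⟩
  rw [← hpc]
  fin_cases e
  · simp [h4]
  · simp [h3]

end Pool.Agent.Lib.MP_f61260_nt.L2
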