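import Pool.Agent.Lib.MP_f61260_nt.L2.An
import Pool.Agent.Lib.MP_f61260_nt.L2.Det

/-!
The criterion: a square root of a polynomial with controlled denominators forces a lower bound
for a quadratic mean of the sizes of the branch points.
-/

set_option autoImplicit false

noncomputable section

namespace Pool.Agent.Lib.MP_f61260_nt.L2

open Finset PowerSeries

theorem FF_le {W u : ℝ} (hu : 0 ≤ u) (h : W ≤ Real.exp u) :
    FF W ≤ Real.exp (min (u ^ 2 / 8) (u / 2)) ^ 2 := by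
  have h1 : 1 ≤ Real.exp u := Real.one_le_exp hu
  have h2 : FF W ≤ FF (Real.exp u) := by
    rcases le_total W 1 with hW | hW
    · rw [FF, if_pos hW]; exact one_le_FF _
    · exact FF_mono hW h
  have hE : Real.exp u = Real.exp (u / 2) ^ 2 := by rw [← Real.exp_nat_mul]; congr 1; ring
  have hE0 := Real.exp_pos (u / 2)
  have h3 : FF (Real.exp u) = Real.cosh (u / 2) ^ 2 := by
    rw [FF_of_one_le h1, Real.cosh_eq, Real.exp_neg, hE]
    field_simp
    ring
  refine h2.trans (h3 ▸ pow_le_pow_left₀ (Real.cosh_pos _).le ?_ 2)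
  rcases min_choice (u ^ 2 / 8) (u / 2) with h4 | h4 <;> rw [h4]
  · have := Real.cosh_le_exp_half_sq (u / 2)
    rwa [show (u / 2) ^ 2 / 2 = u ^ 2 / 8 by ring] at this
  · rw [Real.cosh_eq]
    have := Real.exp_le_exp.mpr (by linarith : -(u / 2) ≤ u / 2)
    linarith

theorem prod_FF_le {k : ℝ} (hk : 0 < k) (Z : Multiset ℂ) :
    ((Z.map fun a => (Real.exp k : ℂ) * a).map fun w => FF ‖w‖).prod ≤
      Real.exp (Z.map fun a =>
        min ((k + Real.posLog ‖a‖) ^ 2 / 8) ((k + Real.posLog ‖a‖) / 2)).sum ^ 2 := by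
  induction Z using Multiset.induction_on with
  | empty => simp
  | cons a Z ih =>
    simp only [Multiset.map_cons, Multiset.prod_cons, Multiset.sum_cons, Real.exp_add, mul_pow]
    refine mul_le_mul (FF_le (add_nonneg hk.le Real.posLog_nonneg) ?_) ih
      (zero_le_one.trans (one_le_prod_FF _)) (sq_nonneg _)
    rw [norm_mul, Complex.norm_real, Real.norm_eq_abs, abs_of_pos (Real.exp_pos k), Real.exp_add]
    refine mul_le_mul_of_nonneg_left ?_ (Real.exp_pos k).le
    rcases eq_or_lt_of_le (norm_nonneg a) with h | h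
    · rw [← h]; positivity
    · rw [← Real.log_le_iff_le_exp h]
      exact le_max_right _ _

theorem arch {L : Type*} [Field L] (e : L →+* ℂ) {g : L⟦X⟧} {Z : Multiset L}
    (hg0 : constantCoeff g = 1) (hg : g ^ 2 = (Z.map fun a => 1 - C a * X).prod) {k η : ℝ}
    (hk : 0 < k) (hη : 0 < η) : ∃ A : ℝ, ∀ (d : ℕ) (n : Fin d × Fin 2 → ℕ),
      (∀ n', (∀ i, n' i ≤ n i) → n' ≠ n → (mx (rows g d) n').det = 0) →
      ‖e (mx (rows g d) n).det‖ ≤ ((2 * d).factorial : ℝ) * Real.exp (d * A + k * d ^ 2 -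
        (∑ i, n i : ℕ) * (k - η - (Z.map fun a =>
          min ((k + Real.posLog ‖e a‖) ^ 2 / 8) ((k + Real.posLog ‖e a‖) / 2)).sum)) := by
  have hr0 : 1 < Real.exp (η / 2) := Real.one_lt_exp_iff.mpr (by linarith)
  have hr : Real.exp (η / 2) < Real.exp η := Real.exp_lt_exp.mpr (by linarith)
  obtain ⟨m, hm⟩ := pow_unbounded_of_one_lt
    (((Z.map e).map fun a => (Real.exp k : ℂ) * a).map fun w => FF ‖w‖).prod (one_lt_FF hr0)
  obtain ⟨ψ, h, hψ0, hψ, hρ, hh0, hh, K, hK0, hK⟩ := ramified hr0 hr m _ hm.le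
  have hc := prod_FF_le hk (Z.map e)
  rw [Multiset.map_map (fun a : ℂ =>
    min ((k + Real.posLog ‖a‖) ^ 2 / 8) ((k + Real.posLog ‖a‖) / 2))] at hc
  simp only [Function.comp_def] at hc
  generalize (Z.map fun a =>
    min ((k + Real.posLog ‖e a‖) ^ 2 / 8) ((k + Real.posLog ‖e a‖) / 2)).sum = c at hc ⊢
  have hM : ‖(Real.exp k : ℂ)‖ = Real.exp k := by
    rw [Complex.norm_real, Real.norm_eq_abs, abs_of_pos (Real.exp_pos k)]
  obtain ⟨φ, hφ⟩ : ∃ φ : ℂ⟦X⟧, φ = C (Real.exp k : ℂ) * ψ := ⟨_, rfl⟩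
  have hφ0 : constantCoeff φ = 0 := by simp [hφ, hψ0]
  have hs := HasSubst.of_constantCoeff_zero' hφ0
  have hφb : Bd (Real.exp k ^ 2) φ := by
    have := (bd_C (Real.exp k : ℂ)).mul (sq_nonneg _) hψ
    rwa [mul_one, hM, ← hφ] at this
  have hρ2 : Real.exp (k - c) ≤ ‖coeff 1 φ‖ := by
    have h1 : 1 ≤ (‖coeff 1 ψ‖ * Real.exp c) ^ 2 := by
      rw [mul_pow]
      exact hρ.trans (mul_le_mul_of_nonneg_left hc (sq_nonneg _))
    have h2 : 1 ≤ ‖coeff 1 ψ‖ * Real.exp c := (one_le_sq_iff₀ (by positivity)).mp h1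
    rw [hφ, coeff_C_mul, norm_mul, hM, Real.exp_sub, div_le_iff₀ (Real.exp_pos c), mul_assoc]
    exact le_mul_of_one_le_right (Real.exp_pos k).le h2
  let S : L⟦X⟧ →+* ℂ⟦X⟧ := (substAlgHom (R := ℂ) hs : ℂ⟦X⟧ →+* ℂ⟦X⟧).comp (map e)
  have hS : ∀ u, S u = (map e u).subst φ := fun u => by
    simp only [S, RingHom.comp_apply, RingHom.coe_coe, coe_substAlgHom]
  have hSX : S X = φ := by rw [hS, map_X, subst_X hs]
  have hSC : ∀ a, S (C a) = C (e a) := fun a => by rw [hS, map_C, subst_C]; rfl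
  have hSg : S g = h := by
    have h1 : S g ^ 2 = h ^ 2 := by
      rw [← map_pow, hg, hh, map_multiset_prod, Multiset.map_map, Multiset.map_map,
        Multiset.map_map]
      congr 1
      refine Multiset.map_congr rfl fun a _ => ?_
      simp only [Function.comp_apply, map_sub, map_one, map_mul, hSX, hSC]
      rw [hφ]; ring
    have h2 : constantCoeff (S g) = 1 := by
      rw [← coeff_zero_eq_constantCoeff_apply, hS, coeff_subst_sum hφ0]
      simp [hg0]
    rcases sq_eq_sq_iff_eq_or_eq_neg.mp h1 with h3 | h3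
    · exact h3
    · rw [h3, map_neg, hh0] at h2
      norm_num at h2
  have hr1 : 1 ≤ Real.exp η := (hr0.trans hr).le
  have hpow : ∀ (t : Fin 2) (N : ℕ), nq N (h ^ (t : ℕ)) ≤ (K + 1) * (Real.exp η ^ N) ^ 2 := by
    intro t N
    have h1 : 1 ≤ (Real.exp η ^ N) ^ 2 := one_le_pow₀ (one_le_pow₀ hr1)
    fin_cases t
    · have h2 : nq N (1 : ℂ⟦X⟧) ≤ 1 := by
        cases N with
        | zero => simp [nq]
        | succ N => simp [nq, sum_range_succ', coeff_one]
      simp only [pow_zero]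
      nlinarith
    · simp only [pow_one]
      nlinarith [hK N]
  refine ⟨2 * (Real.log (K + 1) / 2 + η), fun d n hmin => ?_⟩
  have hdet := det_subst e hφ0 (rows g d) hmin
  have hb := norm_det_le (mx (fun i => ((map e (rows g d i)).subst φ : ℂ⟦X⟧)) n)
    (fun i => Real.exp (Real.log (K + 1) / 2 + η + n i * η)) (fun i => Real.exp ((i.1 : ℕ) * k))
    (fun i j => by
      have h1 : mx (fun i => ((map e (rows g d i)).subst φ : ℂ⟦X⟧)) n i j =
          coeff (n i) (φ ^ (j.1 : ℕ) * h ^ (j.2 : ℕ)) := by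
        rw [mx, Matrix.of_apply, ← hS, rows, map_mul, map_pow, map_pow, hSX, hSg]
      rw [h1]
      refine (pow_le_pow_iff_left₀ (norm_nonneg _) (by positivity) two_ne_zero).mp ?_
      refine (coeff_sq_le _ _).trans ((hφb.pow (sq_nonneg _) _ _ _).trans ?_)
      refine (mul_le_mul_of_nonneg_left (hpow _ _) (by positivity)).trans (le_of_eq ?_)
      have h2 : Real.exp (Real.log (K + 1) / 2) ^ 2 = K + 1 := by
        rw [← Real.exp_nat_mul, ← Real.exp_log (by linarith : 0 < K + 1)]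
        congr 1
        rw [Real.log_exp]; ring
      rw [Real.exp_add, Real.exp_add, Real.exp_nat_mul, Real.exp_nat_mul, mul_pow, mul_pow,
        mul_pow, h2]
      ring)
  have hcard : Fintype.card (Fin d × Fin 2) = 2 * d := by simp [mul_comm]
  rw [hdet, norm_mul, norm_pow, hcard, ← Real.exp_sum, ← Real.exp_sum, ← Real.exp_add] at hb
  have h1 : ∑ i : Fin d × Fin 2, ((i.1 : ℕ) : ℝ) * k ≤ k * d ^ 2 := by
    rw [← sum_mul, mul_comm]
    refine mul_le_mul_of_nonneg_left ?_ hk.le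
    have h2 : (∑ j ∈ range d, j) * 2 ≤ d ^ 2 := by
      rw [sum_range_id_mul_two, sq]
      exact Nat.mul_le_mul_left _ (Nat.sub_le _ _)
    have h3 : ((∑ j ∈ range d, j : ℕ) : ℝ) * 2 ≤ (d : ℝ) ^ 2 := by exact_mod_cast h2
    rw [Fintype.sum_prod_type]
    simp only [sum_const, card_univ, Fintype.card_fin, nsmul_eq_mul]
    rw [← mul_sum, Fin.sum_univ_eq_sum_range (fun j => (j : ℝ)) d]
    push_cast at h3 ⊢
    linarith
  have h2 : ∑ i : Fin d × Fin 2, (Real.log (K + 1) / 2 + η + n i * η) =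
      d * (2 * (Real.log (K + 1) / 2 + η)) + (∑ i, n i : ℕ) * η := by
    rw [sum_add_distrib, sum_const, card_univ, hcard, nsmul_eq_mul, ← sum_mul]
    push_cast
    ring
  have h3 : Real.exp ((∑ i, n i : ℕ) * (k - c)) ≤ ‖coeff 1 φ‖ ^ ∑ i, n i := by
    rw [Real.exp_nat_mul]
    exact pow_le_pow_left₀ (Real.exp_pos _).le hρ2 _
  have h4 := (mul_le_mul_of_nonneg_right h3 (norm_nonneg (e (mx (rows g d) n).det))).trans hb
  rw [mul_comm, ← le_div_iff₀ (Real.exp_pos _), mul_div_assoc, ← Real.exp_sub] at h4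
  refine h4.trans (mul_le_mul_of_nonneg_left (Real.exp_le_exp.mpr ?_) (Nat.cast_nonneg _))
  rw [h2]
  linarith

theorem one_le_abs_of_places {L : Type*} [Field L] [NumberField L] {y : ℚ} (hy : y ≠ 0)
    (h : ∀ v : AbsoluteValue L ℝ, IsNonarchimedean v → v (algebraMap ℚ L y) ≤ 1) :
    1 ≤ |(y : ℝ)| := by
  have h0 : algebraMap ℚ L y ≠ 0 := (map_ne_zero _).mpr hy
  have h1 := NumberField.FinitePlace.prod_eq_inv_abs_norm h0
  have h2 : ∏ᶠ w : NumberField.FinitePlace L, w (algebraMap ℚ L y) ≤ 1 := by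
    refine (finprod_induction (fun x : ℝ => 0 ≤ x ∧ x ≤ 1) ⟨zero_le_one, le_rfl⟩
      (fun a b ha hb => ⟨mul_nonneg ha.1 hb.1, mul_le_one₀ ha.2 hb.1 hb.2⟩) fun w => ?_).2
    exact ⟨w.1.nonneg _, h w.1 fun a b => w.add_le a b⟩
  rw [h1, Algebra.norm_algebraMap] at h2
  push_cast at h2
  have hy' : (0 : ℝ) < |(y : ℝ)| := abs_pos.mpr (by exact_mod_cast hy)
  rw [abs_pow, inv_le_one₀ (by positivity)] at h2
  exact (one_le_pow_iff_of_nonneg hy'.le Module.finrank_pos.ne').mp h2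

theorem one_le_map_prod {L : Type*} (Z : Multiset L) (f : L → ℝ) :
    1 ≤ (Z.map fun a => max 1 (f a)).prod := by
  induction Z using Multiset.induction_on with
  | empty => simp
  | cons a Z ih =>
    rw [Multiset.map_cons, Multiset.prod_cons]
    exact one_le_mul_of_one_le_of_one_le (le_max_left _ _) ih

theorem ratCrit (L : Type) [Field L] [NumberField L] [IsGalois ℚ L] [DecidableEq L] (ι : L →+* ℂ)
    (g : PowerSeries L) (Z : Multiset L) (hg0 : constantCoeff g = 1)
    (hg : g ^ 2 = (Z.map fun a => 1 - C a * X).prod)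
    (hodd : ∃ a, a ≠ 0 ∧ Odd (Z.count a)) (b : ℤ) (hb : b ≠ 0)
    (hR : ∀ v : AbsoluteValue L ℝ, IsNonarchimedean v → ∀ m,
      v (coeff m g) ≤ (Z.map fun a => max 1 (v a)).prod ^ m)
    (hRb : ∀ v : AbsoluteValue L ℝ, IsNonarchimedean v →
      v (b : L) * ∏ σ : L ≃ₐ[ℚ] L, (Z.map fun a => max 1 (v (σ a))).prod ≤ 1)
    (k : ℝ) (hk : 0 < k) :
    k * Module.finrank ℚ L ≤ 2 * ∑ σ : L ≃ₐ[ℚ] L, (Z.map fun a =>
      min ((k + Real.posLog ‖ι (σ a)‖) ^ 2 / 8) ((k + Real.posLog ‖ι (σ a)‖) / 2)).sum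
      + 2 * Real.log |(b : ℝ)| := by
  by_contra hcon
  push Not at hcon
  obtain ⟨c, hc⟩ : ∃ c : (L ≃ₐ[ℚ] L) → ℝ, ∀ σ, c σ = (Z.map fun a =>
      min ((k + Real.posLog ‖ι (σ a)‖) ^ 2 / 8) ((k + Real.posLog ‖ι (σ a)‖) / 2)).sum :=
    ⟨_, fun _ => rfl⟩
  simp only [← hc] at hcon
  have hN : (Fintype.card (L ≃ₐ[ℚ] L) : ℝ) = Module.finrank ℚ L := by
    rw [← Nat.card_eq_fintype_card, IsGalois.card_aut_eq_finrank]
  have hN0 : (0 : ℝ) < Module.finrank ℚ L := by exact_mod_cast Module.finrank_pos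
  generalize (Module.finrank ℚ L : ℝ) = N at hcon hN hN0
  obtain ⟨δ, hδ⟩ : ∃ δ, δ = (k * N / 2 - ∑ σ, c σ - Real.log |(b : ℝ)|) / 2 := ⟨_, rfl⟩
  have hδ0 : 0 < δ := by linarith
  choose A hA using fun σ : L ≃ₐ[ℚ] L =>
    arch (ι.comp (σ : L →+* L)) hg0 hg hk (div_pos hδ0 hN0)
  simp only [RingHom.comp_apply, RingHom.coe_coe, ← hc] at hA
  have main : ∀ d : ℕ, 0 < d → 2 * d * δ ≤
      k * N / 2 + δ + ∑ σ, A σ + 2 * N * Real.log (2 * d) := by
    intro d hd
    obtain ⟨n, hn, hmin⟩ := exists_min_minor (rows g d) (rows_indep hg hodd d)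
    have hT := sum_ge_of_det _ hn
    have hcard : Fintype.card (Fin d × Fin 2) = 2 * d := by simp [mul_comm]
    rw [hcard] at hT
    have hA' := fun σ => hA σ d n hmin
    have hfin : ∀ v : AbsoluteValue L ℝ, IsNonarchimedean v → v (mx (rows g d) n).det ≤
        (Z.map fun a => max 1 (v a)).prod ^ ∑ i, n i := by
      intro v hv
      have h1 := one_le_map_prod Z v
      rw [← prod_pow_eq_pow_sum]
      refine abv_det_le v hv _ _ (fun i => by positivity) fun i j => ?_
      simp only [mx, rows, Matrix.of_apply, coeff_X_pow_mul']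
      split_ifs with hj
      · obtain ⟨j, t⟩ := j
        fin_cases t
        · simp only [pow_zero, coeff_one]
          split_ifs
          · rw [map_one]; exact one_le_pow₀ h1
          · rw [map_zero]; positivity
        · simp only [pow_one]
          exact (hR v hv _).trans (pow_le_pow_right₀ h1 (Nat.sub_le _ _))
      · rw [map_zero]; positivity
    generalize (mx (rows g d) n).det = Δ at hn hA' hfin
    generalize ∑ i, n i = T at hT hA' hfin
    have hy : algebraMap ℚ L (b ^ T * Algebra.norm ℚ Δ) = b ^ T * ∏ σ : L ≃ₐ[ℚ] L, σ Δ := by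
      rw [map_mul, Algebra.norm_eq_prod_automorphisms]
      simp
    have h1 := one_le_abs_of_places (L := L) (y := b ^ T * Algebra.norm ℚ Δ)
      (mul_ne_zero (pow_ne_zero _ (by exact_mod_cast hb)) (Algebra.norm_ne_zero_iff.mpr hn))
      (fun v hv => by
        rw [hy, map_mul, map_pow, map_prod]
        refine le_trans ?_ (pow_le_one₀ (n := T) (mul_nonneg (v.nonneg _) (prod_nonneg fun σ _ =>
          zero_le_one.trans (one_le_map_prod Z fun a => v (σ a)))) (hRb v hv))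
        rw [mul_pow, ← prod_pow]
        refine mul_le_mul_of_nonneg_left (prod_le_prod (fun _ _ => v.nonneg _) fun σ _ => ?_)
          (pow_nonneg (v.nonneg _) _)
        exact hfin (v.comp (f := (σ : L →+* L)) σ.injective) fun x y => by
          have := hv (σ x) (σ y)
          rwa [← map_add] at this)
    have hb0 : (0 : ℝ) < |(b : ℝ)| := abs_pos.mpr (by exact_mod_cast hb)
    have h2 : |((b ^ T * Algebra.norm ℚ Δ : ℚ) : ℝ)| =
        |(b : ℝ)| ^ T * ∏ σ : L ≃ₐ[ℚ] L, ‖ι (σ Δ)‖ := by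
      have h3 := congrArg (fun x => ‖ι x‖) hy
      simp only [eq_ratCast, map_ratCast, map_mul, map_pow, map_intCast, map_prod, norm_mul,
        norm_pow, norm_prod, Complex.norm_intCast, Complex.norm_ratCast] at h3
      push_cast
      rw [abs_mul, abs_pow]
      exact h3
    have hd0 : (0 : ℝ) < d := by exact_mod_cast hd
    have h3 : (((2 * d).factorial : ℕ) : ℝ) ≤ Real.exp (2 * d * Real.log (2 * d)) := by
      have h4 : (((2 * d).factorial : ℕ) : ℝ) ≤ ((2 * d : ℕ) : ℝ) ^ (2 * d) := by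
        exact_mod_cast Nat.factorial_le_pow (2 * d)
      refine h4.trans (le_of_eq ?_)
      have h5 := Real.exp_nat_mul (Real.log (2 * d)) (2 * d)
      rw [Real.exp_log (by positivity)] at h5
      push_cast at h5 ⊢
      exact h5.symm
    have h4 : ∏ σ : L ≃ₐ[ℚ] L, ‖ι (σ Δ)‖ ≤ Real.exp (∑ σ : L ≃ₐ[ℚ] L,
        (2 * d * Real.log (2 * d) + (d * A σ + k * d ^ 2 - T * (k - δ / N - c σ)))) := by
      rw [Real.exp_sum]
      refine prod_le_prod (fun _ _ => norm_nonneg _) fun σ _ => (hA' σ).trans ?_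
      rw [Real.exp_add]
      exact mul_le_mul_of_nonneg_right h3 (Real.exp_pos _).le
    have h5 : |(b : ℝ)| ^ T = Real.exp (T * Real.log |(b : ℝ)|) := by
      rw [Real.exp_nat_mul, Real.exp_log hb0]
    rw [h2, h5] at h1
    have h6 := h1.trans (mul_le_mul_of_nonneg_left h4 (Real.exp_pos _).le)
    rw [← Real.exp_add, Real.one_le_exp_iff] at h6
    simp only [sum_add_distrib, sum_sub_distrib, sum_const, card_univ, nsmul_eq_mul, hN,
      ← mul_sum] at h6
    have h7 : N * (δ / N) = δ := by field_simp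
    have h8 : (2 * d : ℝ) * (2 * d) ≤ 2 * T + 2 * d := by exact_mod_cast hT
    have h9 : T * (k * N / 2 + δ) ≤ N * (2 * d * Real.log (2 * d)) + d * ∑ σ, A σ +
        N * (k * d ^ 2) := by
      rw [h7] at h6
      have : (T : ℝ) * (k * N / 2 + δ) =
          T * (N * k - δ - ∑ σ, c σ) - T * Real.log |(b : ℝ)| := by rw [hδ]; ring
      linarith
    have h10 : (2 * d ^ 2 - d) * (k * N / 2 + δ) ≤ T * (k * N / 2 + δ) :=
      mul_le_mul_of_nonneg_right (by linarith) (by positivity)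
    refine le_of_mul_le_mul_left ?_ hd0
    linarith
  obtain ⟨d, hd⟩ := exists_nat_gt
    (max 0 ((k * N / 2 + δ + ∑ σ, A σ + 2 * N * Real.log (4 * N / δ)) / δ))
  have hd0 : (0 : ℝ) < d := (le_max_left _ _).trans_lt hd
  have h1 := main d (by exact_mod_cast hd0)
  have h2 := (div_lt_iff₀ hδ0).mp ((le_max_right _ _).trans_lt hd)
  have h3 := Real.log_le_sub_one_of_pos (x := 2 * d / (4 * N / δ)) (by positivity)
  rw [Real.log_div (by positivity) (by positivity)] at h3
  have h4 : 2 * N * (2 * d / (4 * N / δ)) = d * δ := by field_simp; ring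
  have h5 := mul_le_mul_of_nonneg_left h3 (by positivity : 0 ≤ 2 * N)
  nlinarith

end Pool.Agent.Lib.MP_f61260_nt.L2
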