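import Pool.Agent.Lib.MP_f61260_nt.L2.Fin
import Pool.Agent.Lib.MP_f61260_nt.L2.Main

/-! The descent on the degree and on the level of the cyclotomic field. -/

set_option autoImplicit false

namespace Pool.Agent.Lib.MP_f61260_nt.L2

open Finset Real

lemma cost_le {k d j : ℝ} (hk : k ≤ 1) (hd : 0 ≤ d) (hj0 : 0 ≤ j) (hj : j ≤ 4) :
    min ((k + j * d) ^ 2 / 8) ((k + j * d) / 2) ≤ k ^ 2 / 4 + 4 * min d (d ^ 2) := by
  have h1 : j * d ≤ 4 * d := mul_le_mul_of_nonneg_right hj hd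
  have h2 : 0 ≤ j * d := mul_nonneg hj0 hd
  rcases le_total d 1 with h | h
  · rw [min_eq_right (show d ^ 2 ≤ d by nlinarith)]
    refine (min_le_left _ _).trans ?_
    nlinarith [sq_nonneg (k - j * d)]
  · rw [min_eq_left (show d ≤ d ^ 2 by nlinarith)]
    refine (min_le_right _ _).trans ?_
    nlinarith

lemma max_one_pow (x : ℝ) (j : ℕ) (hx : 0 ≤ x) : max 1 (x ^ j) = max 1 x ^ j := by
  rcases le_total x 1 with h | h
  · rw [max_eq_left h, max_eq_left (pow_le_one₀ hx h), one_pow]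
  · rw [max_eq_right h, max_eq_right (one_le_pow₀ h)]

variable {L : Type} [Field L] [NumberField L]

lemma prod_conj (F : L → ℝ) (t : L ≃ₐ[ℚ] L) (α : L) :
    ∏ σ : L ≃ₐ[ℚ] L, F (σ (t α)) = ∏ σ : L ≃ₐ[ℚ] L, F (σ α) :=
  Fintype.prod_equiv (Equiv.mulRight t) _ _ fun _ => rfl

lemma sum_conj (F : L → ℝ) (t : L ≃ₐ[ℚ] L) (α : L) :
    ∑ σ : L ≃ₐ[ℚ] L, F (σ (t α)) = ∑ σ : L ≃ₐ[ℚ] L, F (σ α) :=
  Fintype.sum_equiv (Equiv.mulRight t) _ _ fun _ => rfl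

lemma torsion_of (t : L ≃ₐ[ℚ] L) {x : L} (h0 : x ≠ 0) (h : t x = x ^ 2) :
    ∃ n : ℕ, 1 ≤ n ∧ x ^ n = 1 := by
  have h1 : ∀ k : ℕ, (t ^ k) x = x ^ 2 ^ k := by
    intro k
    induction k with
    | zero => simp
    | succ k ih => rw [pow_succ', AlgEquiv.mul_apply, ih, map_pow, h, ← pow_mul, pow_succ']
  have h2 := h1 (orderOf t)
  rw [pow_orderOf_eq_one, AlgEquiv.one_apply] at h2
  have h3 : 1 < 2 ^ orderOf t := Nat.one_lt_two_pow (orderOf_pos t).ne'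
  refine ⟨2 ^ orderOf t - 1, by omega, mul_left_cancel₀ h0 ?_⟩
  rw [← pow_succ', Nat.sub_add_cancel h3.le, ← h2, mul_one]

lemma ex_aut [IsGalois ℚ L] {N : ℕ} (hN : 0 < N) {ζ : L} (hζ : IsPrimitiveRoot ζ N) {j : ℕ}
    (hj : j.Coprime N) : ∃ s : L ≃ₐ[ℚ] L, s ζ = ζ ^ j := by
  refine minpoly.exists_algEquiv_of_root' (Algebra.IsAlgebraic.isAlgebraic ζ) ?_
  rw [← Polynomial.cyclotomic_eq_minpoly_rat hζ hN,
    Polynomial.cyclotomic_eq_minpoly_rat (hζ.pow_of_coprime j hj) hN]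
  exact minpoly.aeval _ _

variable [DecidableEq L]

/-- The conjugates of `α` over the field generated by `ζ`. -/
noncomputable def orb (ζ α : L) : Finset L :=
  (Finset.univ.filter fun σ : L ≃ₐ[ℚ] L => σ ζ = ζ).image fun σ => σ α

lemma mem_orb {ζ α β : L} : β ∈ orb ζ α ↔ ∃ σ : L ≃ₐ[ℚ] L, σ ζ = ζ ∧ σ α = β := by
  simp [orb]

lemma self_mem_orb (ζ α : L) : α ∈ orb ζ α := mem_orb.2 ⟨1, rfl, rfl⟩

lemma orb_stable {ζ α β : L} {σ : L ≃ₐ[ℚ] L} (hσ : σ ζ = ζ) (h : β ∈ orb ζ α) :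
    σ β ∈ orb ζ α := by
  obtain ⟨t, ht, rfl⟩ := mem_orb.1 h
  exact mem_orb.2 ⟨σ * t, by rw [AlgEquiv.mul_apply, ht, hσ], rfl⟩

lemma coeff_orb [IsGalois ℚ L] (ζ α : L) (n : ℕ) :
    (∏ β ∈ orb ζ α, (1 - Polynomial.C β * Polynomial.X)).coeff n ∈
      IntermediateField.adjoin ℚ {ζ} := by
  rw [← IsGalois.fixedField_fixingSubgroup (IntermediateField.adjoin ℚ {ζ}),
    IntermediateField.mem_fixedField_iff]
  intro σ hσ
  have h : σ ζ = ζ := (IntermediateField.mem_fixingSubgroup_iff _ _).1 hσ ζ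
    (IntermediateField.mem_adjoin_simple_self ℚ ζ)
  have h' : σ.symm ζ = ζ := by rw [AlgEquiv.symm_apply_eq, h]
  have : (∏ β ∈ orb ζ α, (1 - Polynomial.C β * Polynomial.X)).map (σ : L →+* L) =
      ∏ β ∈ orb ζ α, (1 - Polynomial.C β * Polynomial.X) := by
    rw [Polynomial.map_prod]
    exact prod_nbij' σ σ.symm (fun _ hβ => orb_stable h hβ) (fun _ hβ => orb_stable h' hβ)
      (by simp) (by simp) (by simp)
  conv_rhs => rw [← this, Polynomial.coeff_map]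
  rfl

lemma step [IsGalois ℚ L] (ι : L →+* ℂ) {N : ℕ} (hN : 0 < N) {ζ : L} (hζ : IsPrimitiveRoot ζ N)
    {α : L} (h0 : α ≠ 0) {b : ℤ} (hb : b ≠ 0)
    (hfin : ∀ v : AbsoluteValue L ℝ, IsNonarchimedean v →
      v (b : L) * ∏ σ : L ≃ₐ[ℚ] L, max 1 (v (σ α)) ≤ 1)
    (s : L ≃ₐ[ℚ] L) (e : ℕ) (he : (s ζ = ζ ^ 2 ∧ e = 4) ∨ (s ζ = -ζ ∧ e = 2))
    (hinj : ∀ β ∈ orb ζ α, ∀ β' ∈ orb ζ α, β ^ 2 = β' ^ 2 → β = β')
    (hne : ∀ β ∈ orb ζ α, β ^ e ≠ s α ^ 2) :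
    (Module.finrank ℚ L : ℝ) / (64 * ((orb ζ α).card : ℝ) ^ 2) ≤ log |(b : ℝ)| +
      ∑ σ : L ≃ₐ[ℚ] L, min (posLog ‖ι (σ α)‖) (posLog ‖ι (σ α)‖ ^ 2) := by
  set O := orb ζ α with hO
  obtain ⟨g, hg0, hg, hR⟩ := fin_bound L hN hζ O (coeff_orb ζ α) s e he _ rfl
  have hD : (1 : ℝ) ≤ O.card := by exact_mod_cast card_pos.2 ⟨α, self_mem_orb ζ α⟩
  have he4 : e ≤ 4 := by rcases he with ⟨-, rfl⟩ | ⟨-, rfl⟩ <;> norm_num
  have hconj : ∀ β ∈ O, ∃ t : L ≃ₐ[ℚ] L, β = t α := fun β hβ => by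
    obtain ⟨t, -, h⟩ := mem_orb.1 hβ
    exact ⟨t, h.symm⟩
  have hconj' : ∀ β ∈ O, ∃ t : L ≃ₐ[ℚ] L, s β = t α := fun β hβ => by
    obtain ⟨t, rfl⟩ := hconj β hβ
    exact ⟨s * t, rfl⟩
  have hk1 : 1 / (2 * (O.card : ℝ)) ≤ 1 := by
    rw [div_le_one (by positivity)]; linarith
  have key := ratCrit L ι g _ hg0 hg ⟨s α ^ 2, by simpa using h0, ?_⟩ (b ^ ((e + 2) * O.card))
    (pow_ne_zero _ hb) hR (fun v hv => ?_) (1 / (2 * O.card)) (by positivity)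
  · set k : ℝ := 1 / (2 * O.card) with hk
    set S := ∑ σ : L ≃ₐ[ℚ] L, min (posLog ‖ι (σ α)‖) (posLog ‖ι (σ α)‖ ^ 2) with hS
    have hG : (Fintype.card (L ≃ₐ[ℚ] L) : ℝ) = Module.finrank ℚ L := by
      rw [← IsGalois.card_aut_eq_finrank, Nat.card_eq_fintype_card]
    have h1 : ∀ (φ : L → L) (j : ℕ), j ≤ 4 → (∀ β ∈ O, ∃ t : L ≃ₐ[ℚ] L, φ β = t α) →
        ∑ σ : L ≃ₐ[ℚ] L, ∑ β ∈ O, min ((k + posLog ‖ι (σ (φ β ^ j))‖) ^ 2 / 8)
          ((k + posLog ‖ι (σ (φ β ^ j))‖) / 2) ≤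
          O.card * (Module.finrank ℚ L * (k ^ 2 / 4) + 4 * S) := by
      intro φ j hj hφ
      rw [sum_comm, ← nsmul_eq_mul]
      refine sum_le_card_nsmul _ _ _ fun β hβ => ?_
      obtain ⟨t, ht⟩ := hφ β hβ
      rw [hS, ← sum_conj (fun x => min (posLog ‖ι x‖) (posLog ‖ι x‖ ^ 2)) t α, ← ht, mul_sum, ← hG,
        ← nsmul_eq_mul, ← card_univ, ← sum_const, ← sum_add_distrib]
      refine sum_le_sum fun σ _ => ?_
      rw [map_pow, map_pow, norm_pow, posLog_pow]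
      exact cost_le hk1 posLog_nonneg (by positivity) (by exact_mod_cast hj)
    have h2 := add_le_add (h1 (fun β => β) e he4 hconj) (h1 (fun β => s β) 2 (by norm_num) hconj')
    rw [← sum_add_distrib] at h2
    simp only [Multiset.map_add, Multiset.sum_add, Multiset.map_map, Function.comp_def] at key
    have h3 : log |((b ^ ((e + 2) * O.card) : ℤ) : ℝ)| ≤ 8 * O.card * log |(b : ℝ)| := by
      rw [Int.cast_pow, abs_pow, log_pow]
      refine mul_le_mul_of_nonneg_right ?_ (log_nonneg (by exact_mod_cast Int.one_le_abs hb))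
      exact_mod_cast Nat.mul_le_mul_right _ (by omega)
    have h4 : k * Module.finrank ℚ L ≤ 4 * (O.card * (Module.finrank ℚ L * (k ^ 2 / 4) + 4 * S)) +
        16 * O.card * log |(b : ℝ)| := by
      refine key.trans ?_
      have := mul_le_mul_of_nonneg_left h2 zero_le_two
      exact add_le_add (this.trans_eq (by ring)) (by linarith)
    have h5 : k * Module.finrank ℚ L - O.card * Module.finrank ℚ L * k ^ 2 =
        16 * O.card * (Module.finrank ℚ L / (64 * (O.card : ℝ) ^ 2)) := by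
      rw [hk]; field_simp; ring
    refine le_of_mul_le_mul_left ?_ (show (0 : ℝ) < 16 * O.card by positivity)
    linarith
  · rw [Multiset.count_add, Multiset.count_eq_zero_of_notMem, Multiset.count_eq_one_of_mem]
    · exact odd_one
    · refine O.nodup.map_on fun β hβ β' hβ' h => hinj β hβ β' hβ' (s.injective ?_)
      rw [map_pow, map_pow, h]
    · exact Multiset.mem_map_of_mem _ (self_mem_orb ζ α)
    · intro h
      obtain ⟨β, hβ, h⟩ := Multiset.mem_map.1 h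
      exact hne β hβ h
  · set T := ∏ σ : L ≃ₐ[ℚ] L, max 1 (v (σ α)) with hT
    have h1 : ∀ (φ : L → L) (j : ℕ), (∀ β ∈ O, ∃ t : L ≃ₐ[ℚ] L, φ β = t α) →
        ∏ σ : L ≃ₐ[ℚ] L, ∏ β ∈ O, max 1 (v (σ (φ β ^ j))) = T ^ (j * O.card) := by
      intro φ j hφ
      rw [prod_comm, pow_mul, ← prod_const]
      refine prod_congr rfl fun β hβ => ?_
      obtain ⟨t, ht⟩ := hφ β hβ
      rw [hT, ← prod_conj (fun x => max 1 (v x)) t α, ← ht, ← prod_pow]
      exact prod_congr rfl fun σ _ => by rw [map_pow, map_pow, max_one_pow _ _ (v.nonneg _)]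
    have h2 := congrArg₂ (· * ·) (h1 (fun β => β) e hconj) (h1 (fun β => s β) 2 hconj')
    simp only [← prod_mul_distrib, ← pow_add, ← add_mul] at h2
    simp only [Multiset.map_add, Multiset.prod_add, Multiset.map_map, Function.comp_def]
    have h3 : 0 ≤ v (b : L) * T := mul_nonneg (v.nonneg _)
      (prod_nonneg fun _ _ => zero_le_one.trans (le_max_left _ _))
    calc _ = (v (b : L) * T) ^ ((e + 2) * O.card) := by
          rw [mul_pow, Int.cast_pow, map_pow, ← h2]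
          congr 1
          exact prod_congr rfl fun σ _ => prod_mul_distrib.symm
      _ ≤ 1 := pow_le_one₀ h3 (hfin v hv)

theorem core (L : Type) [Field L] [NumberField L] [IsGalois ℚ L] [DecidableEq L] (ι : L →+* ℂ)
    (D N : ℕ) (hN : 0 < N) (ζ : L) (hζ : IsPrimitiveRoot ζ N) (α : L) (h0 : α ≠ 0)
    (ht : ∀ n : ℕ, 1 ≤ n → α ^ n ≠ 1)
    (hD : ((Finset.univ.filter fun σ : L ≃ₐ[ℚ] L => σ ζ = ζ).image fun σ => σ α).card ≤ D)
    (b : ℤ) (hb : b ≠ 0) (hfin : ∀ v : AbsoluteValue L ℝ, IsNonarchimedean v →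
      v (b : L) * ∏ σ : L ≃ₐ[ℚ] L, max 1 (v (σ α)) ≤ 1) :
    (Module.finrank ℚ L : ℝ) / (64 * (D : ℝ) ^ 2) ≤ Real.log |(b : ℝ)| +
      ∑ σ : L ≃ₐ[ℚ] L, min (Real.posLog ‖ι (σ α)‖) (Real.posLog ‖ι (σ α)‖ ^ 2) := by
  induction h : D + N using Nat.strong_induction_on generalizing D N ζ α b with
  | _ n ih =>
  subst h
  change (orb ζ α).card ≤ D at hD
  have hpos : ∀ ζ α : L, 0 < (orb ζ α).card := fun ζ α => card_pos.2 ⟨α, self_mem_orb ζ α⟩
  have hmono : ∀ {x y : ℝ}, 0 < x → x ≤ y →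
      (Module.finrank ℚ L : ℝ) / (64 * y ^ 2) ≤ Module.finrank ℚ L / (64 * x ^ 2) := by
    intro x y hx hxy
    gcongr
  have hne0 : ∀ β ∈ orb ζ α, β ≠ 0 := fun β hβ => by
    obtain ⟨t, -, rfl⟩ := mem_orb.1 hβ
    simpa using h0
  by_cases hinj : ∀ β ∈ orb ζ α, ∀ β' ∈ orb ζ α, β ^ 2 = β' ^ 2 → β = β'
  swap
  · push Not at hinj
    obtain ⟨β, hβ, β', hβ', hsq, hne⟩ := hinj
    have hneg : β' = -β := (sq_eq_sq_iff_eq_or_eq_neg.1 hsq.symm).resolve_left hne.symm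
    have hst : ∀ γ ∈ orb ζ α, -γ ∈ orb ζ α := by
      intro γ hγ
      obtain ⟨t, ht, rfl⟩ := mem_orb.1 hγ
      obtain ⟨u, hu, rfl⟩ := mem_orb.1 hβ
      have hu' : u.symm ζ = ζ := by rw [AlgEquiv.symm_apply_eq, hu]
      simpa [hneg] using orb_stable ht (orb_stable hu' hβ')
    have him : orb ζ (α ^ 2) = (orb ζ α).image (· ^ 2) := by
      simp only [orb, image_image, Function.comp_def, map_pow]
    have hcard : 2 * (orb ζ (α ^ 2)).card ≤ (orb ζ α).card := by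
      rw [him]
      refine mul_card_image_le_card _ 2 fun y hy => ?_
      obtain ⟨γ, hγ, rfl⟩ := mem_image.1 hy
      have : γ ≠ -γ := fun h => hne0 γ hγ (self_eq_neg.1 h)
      refine (card_pair this).ge.trans (card_le_card fun x hx => ?_)
      rcases mem_insert.1 hx with rfl | hx
      · exact mem_filter.2 ⟨hγ, rfl⟩
      · rw [mem_singleton.1 hx]
        exact mem_filter.2 ⟨hst γ hγ, neg_sq γ⟩
    have hp := hpos ζ (α ^ 2)
    have key := ih _ (by omega) (orb ζ (α ^ 2)).card N hN ζ hζ (α ^ 2) (pow_ne_zero _ h0)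
      (fun n hn => by rw [← pow_mul]; exact ht _ (by omega)) le_rfl (b ^ 2) (pow_ne_zero _ hb)
      (fun v hv => ?_) rfl
    · have h1 := hmono (x := 2 * (orb ζ (α ^ 2)).card) (y := D) (by positivity)
        (by exact_mod_cast hcard.trans hD)
      have h2 : ∑ σ : L ≃ₐ[ℚ] L, min (posLog ‖ι (σ (α ^ 2))‖) (posLog ‖ι (σ (α ^ 2))‖ ^ 2) ≤
          4 * ∑ σ : L ≃ₐ[ℚ] L, min (posLog ‖ι (σ α)‖) (posLog ‖ι (σ α)‖ ^ 2) := by
        rw [mul_sum]
        refine sum_le_sum fun σ _ => ?_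
        rw [map_pow, map_pow, norm_pow, posLog_pow, mul_min_of_nonneg _ _ (by norm_num)]
        have := posLog_nonneg (x := ‖ι (σ α)‖)
        exact min_le_min (by push_cast; linarith) (by push_cast; linarith)
      have h3 : 0 ≤ log |(b : ℝ)| := log_nonneg (by exact_mod_cast Int.one_le_abs hb)
      rw [Int.cast_pow, abs_pow, log_pow] at key
      have h4 : (Module.finrank ℚ L : ℝ) / (64 * (2 * ((orb ζ (α ^ 2)).card : ℝ)) ^ 2) =
          Module.finrank ℚ L / (64 * ((orb ζ (α ^ 2)).card : ℝ) ^ 2) / 4 := by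
        field_simp; ring
      push_cast at key
      linarith
    · have h3 : 0 ≤ v (b : L) * ∏ σ : L ≃ₐ[ℚ] L, max 1 (v (σ α)) := mul_nonneg (v.nonneg _)
        (prod_nonneg fun _ _ => zero_le_one.trans (le_max_left _ _))
      simp only [map_pow, Int.cast_pow, max_one_pow _ _ (v.nonneg _), prod_pow, ← mul_pow]
      exact pow_le_one₀ h3 (hfin v hv)
  have hm := hmono (x := (orb ζ α).card) (y := D) (by exact_mod_cast hpos ζ α)
    (by exact_mod_cast hD)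
  rcases Nat.even_or_odd' N with ⟨M, rfl | hM⟩
  swap
  · obtain ⟨s, hs⟩ := ex_aut hN hζ (j := 2) (by rw [hM]; simp)
    refine hm.trans (step ι hN hζ h0 hb hfin s 4 (Or.inl ⟨hs, rfl⟩) hinj fun β hβ h => ?_)
    obtain ⟨t, -, rfl⟩ := mem_orb.1 hβ
    obtain ⟨n, hn, h'⟩ := torsion_of (t.symm * s) (pow_ne_zero 2 h0) (by
      change t.symm (s (α ^ 2)) = _
      rw [AlgEquiv.symm_apply_eq, map_pow, ← h, ← pow_mul, map_pow])
    exact ht (2 * n) (by omega) (by rw [pow_mul, h'])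
  have hM : 0 < M := by omega
  have hζ2 : IsPrimitiveRoot (ζ ^ 2) M := hζ.pow hN rfl
  have hζM : ζ ^ M = -1 := (hζ.pow hN (mul_comm 2 M)).eq_neg_one_of_two_right
  rcases Nat.even_or_odd' M with ⟨K, rfl | hK⟩
  swap
  · refine ih _ (by omega) D M hM _ hζ2 α h0 ht (le_trans (card_le_card fun β hβ => ?_) hD) b hb
      hfin rfl
    obtain ⟨t, ht, rfl⟩ := mem_orb.1 hβ
    refine mem_orb.2 ⟨t, ?_, rfl⟩
    have : ζ = -(ζ ^ 2) ^ (K + 1) := by
      rw [← pow_mul, show 2 * (K + 1) = M + 1 by omega, pow_succ, hζM]; ring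
    rw [this, map_neg, map_pow, ht]
  obtain ⟨s, hs⟩ := ex_aut hN hζ (j := 2 * K + 1) (by
    rw [Nat.coprime_mul_iff_right]
    exact ⟨by simp, by simp⟩)
  rw [pow_succ, hζM, neg_one_mul] at hs
  by_cases hne : ∀ β ∈ orb ζ α, β ^ 2 ≠ s α ^ 2
  · exact hm.trans (step ι hN hζ h0 hb hfin s 2 (Or.inr ⟨hs, rfl⟩) hinj hne)
  push Not at hne
  obtain ⟨β, hβ, hsq⟩ := hne
  have hcase : ∀ t : L ≃ₐ[ℚ] L, t (ζ ^ 2) = ζ ^ 2 →
      t ζ = ζ ∨ ∃ u : L ≃ₐ[ℚ] L, u ζ = ζ ∧ t = u * s := by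
    intro t ht
    rw [map_pow] at ht
    refine (sq_eq_sq_iff_eq_or_eq_neg.1 ht).imp_right fun h => ⟨t * s⁻¹, ?_, by simp⟩
    have : s.symm ζ = -ζ := by rw [AlgEquiv.symm_apply_eq, map_neg, hs, neg_neg]
    change t (s.symm ζ) = ζ
    rw [this, map_neg, h, neg_neg]
  rcases sq_eq_sq_iff_eq_or_eq_neg.1 hsq.symm with h | h
  · refine ih _ (by omega) D _ hM _ hζ2 α h0 ht (le_trans (card_le_card fun γ hγ => ?_) hD) b hb
      hfin rfl
    obtain ⟨t, ht, rfl⟩ := mem_orb.1 hγ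
    rcases hcase t ht with h' | ⟨u, hu, rfl⟩
    · exact mem_orb.2 ⟨t, h', rfl⟩
    · rw [AlgEquiv.mul_apply, h]; exact orb_stable hu hβ
  · have hζ0 : ζ ≠ 0 := hζ.ne_zero hN.ne'
    have hσ : ∀ σ : L ≃ₐ[ℚ] L, σ ζ ^ (2 * (2 * K)) = 1 := fun σ => by
      rw [← map_pow, hζ.pow_eq_one, map_one]
    have key := ih _ (by omega) D _ hM _ hζ2 (ζ * α) (mul_ne_zero hζ0 h0) (fun n hn h' => ?_)
      (le_trans (card_le_card (t := (orb ζ α).image (ζ * ·)) fun γ hγ => ?_)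
        (card_image_le.trans hD)) b hb (fun v hv => ?_) rfl
    · have : ∀ σ : L ≃ₐ[ℚ] L, ‖ι (σ ζ)‖ = 1 := fun σ =>
        v_root (NumberField.place ι) hN (hσ σ)
      simpa only [map_mul, norm_mul, this, one_mul] using key
    · refine ht (n * (2 * (2 * K))) (Nat.mul_pos hn hN) ?_
      have := congrArg (· ^ (2 * (2 * K))) h'
      simpa only [mul_pow, ← pow_mul, mul_comm n, pow_mul ζ (2 * (2 * K)), hζ.pow_eq_one, one_pow,
        one_mul] using this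
    · obtain ⟨t, ht, rfl⟩ := mem_orb.1 hγ
      rcases hcase t ht with h' | ⟨u, hu, rfl⟩
      · exact mem_image.2 ⟨t α, mem_orb.2 ⟨t, h', rfl⟩, by rw [map_mul, h']⟩
      · refine mem_image.2 ⟨u β, orb_stable hu hβ, ?_⟩
        rw [AlgEquiv.mul_apply, map_mul, hs, h, neg_mul_neg, map_mul, hu]
    · simpa only [map_mul, v_root v hN (hσ _), one_mul] using hfin v hv

end Pool.Agent.Lib.MP_f61260_nt.L2
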