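import Pool.Agent.Lib.MP_f61260_nt.L2.Gr

/-! Bounds at the finite places for the coefficients of the square root series. -/

set_option autoImplicit false

namespace Pool.Agent.Lib.MP_f61260_nt.L2

open NumberField IntermediateField

variable {L : Type} [Field L]

/-- The valuation ring of a nonarchimedean absolute value. -/
def vring (v : AbsoluteValue L ℝ) (hv : IsNonarchimedean v) : Subring L where
  carrier := {x | v x ≤ 1}
  mul_mem' := fun {a b} ha hb => by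
    simp only [Set.mem_ofPred_eq, map_mul] at *
    exact mul_le_one₀ ha (v.nonneg _) hb
  one_mem' := by simp
  add_mem' := fun {a b} ha hb => (hv a b).trans (max_le ha hb)
  zero_mem' := by simp
  neg_mem' := fun {a} ha => by simpa using ha

lemma v_root (v : AbsoluteValue L ℝ) {ζ : L} {N : ℕ} (hN : 0 < N) (h : ζ ^ N = 1) : v ζ = 1 := by
  have := congrArg v h
  rw [map_pow, map_one] at this
  exact (pow_eq_one_iff_of_nonneg (v.nonneg _) hN.ne').1 this

lemma v_adjoin (v : AbsoluteValue L ℝ) (hv : IsNonarchimedean v) {ζ : L} (hζ : v ζ ≤ 1) {x : L}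
    (hx : x ∈ Algebra.adjoin ℤ {ζ}) : v x ≤ 1 := by
  induction hx using Algebra.adjoin_induction with
  | mem x hx => rw [Set.mem_singleton_iff.1 hx]; exact hζ
  | algebraMap r => simpa using hv.apply_intCast_le_one (n := r)
  | add x y _ _ hx hy => exact (vring v hv).add_mem hx hy
  | mul x y _ _ hx hy => exact (vring v hv).mul_mem hx hy

open Polynomial in
lemma v_coeff_le (v : AbsoluteValue L ℝ) (hv : IsNonarchimedean v) (O : Finset L) (φ : L → L)
    (n : ℕ) : v ((∏ β ∈ O, (1 - C (φ β) * X)).coeff n) ≤ ∏ β ∈ O, max 1 (v (φ β)) := by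
  classical
  induction O using Finset.induction_on generalizing n with
  | empty =>
    simp only [Finset.prod_empty, coeff_one]
    split_ifs <;> simp
  | insert a O ha ih =>
    rw [Finset.prod_insert ha, Finset.prod_insert ha, sub_mul, one_mul, coeff_sub, mul_assoc,
      coeff_C_mul, sub_eq_add_neg]
    have h0 : 0 ≤ ∏ β ∈ O, max 1 (v (φ β)) :=
      Finset.prod_nonneg fun _ _ => zero_le_one.trans (le_max_left _ _)
    refine (hv _ _).trans (max_le ((ih n).trans (le_mul_of_one_le_left h0 (le_max_left _ _))) ?_)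
    rw [v.map_neg, map_mul]
    refine mul_le_mul (le_max_right _ _) ?_ (v.nonneg _) (zero_le_one.trans (le_max_left _ _))
    rcases n with _ | n
    · simpa using h0
    · rw [coeff_X_mul]; exact ih n

lemma int_mem [NumberField L] {N : ℕ} (hN : 0 < N) {ζ : L} (hζ : IsPrimitiveRoot ζ N)
    (x : 𝓞 (adjoin ℚ {ζ})) : ((x : adjoin ℚ {ζ}) : L) ∈ Algebra.adjoin ℤ {ζ} := by
  have : NeZero N := ⟨hN.ne'⟩
  have : IsCyclotomicExtension {N} ℚ (adjoin ℚ {ζ}) :=
    hζ.intermediateField_adjoin_isCyclotomicExtension ℚ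
  have hζ' : IsPrimitiveRoot (⟨ζ, mem_adjoin_simple_self ℚ ζ⟩ : adjoin ℚ {ζ}) N :=
    IsPrimitiveRoot.coe_submonoidClass_iff.mp hζ
  obtain ⟨⟨y, hy⟩, h⟩ :=
    (IsCyclotomicExtension.Rat.isIntegralClosure_adjoin_singleton hζ').isIntegral_iff.1 x.2
  have h' : y = (x : adjoin ℚ {ζ}) := h
  rw [← h']
  clear h h'
  induction hy using Algebra.adjoin_induction with
  | mem x hx => rw [Set.mem_singleton_iff.1 hx]; exact Algebra.self_mem_adjoin_singleton ℤ ζ
  | algebraMap r => simp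
  | add x y _ _ hx hy => exact add_mem hx hy
  | mul x y _ _ hx hy => exact mul_mem hx hy

/-- A common denominator which is optimal at two given places. -/
lemma ex_den {K : Type} [Field K] [NumberField K] (d : ℕ) (c : ℕ → K) (hc0 : c 0 = 1)
    (hd : ∀ n, d < n → c n = 0) (w₁ w₂ : AbsoluteValue K ℝ) (h₁ : IsNonarchimedean w₁)
    (h₂ : IsNonarchimedean w₂) (i₁ : ∀ x : 𝓞 K, w₁ x ≤ 1) (i₂ : ∀ x : 𝓞 K, w₂ x ≤ 1) :
    ∃ y : K, (∀ n, ∃ z : 𝓞 K, y * c n = z) ∧ (∃ n, 1 ≤ w₁ (y * c n)) ∧ ∃ n, 1 ≤ w₂ (y * c n) := by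
  obtain ⟨⟨t, ht⟩, hb⟩ := IsLocalization.exist_integer_multiples (nonZeroDivisors (𝓞 K))
    (Finset.range (d + 1)) c
  have ht0 : (t : K) ≠ 0 := by simpa using nonZeroDivisors.ne_zero ht
  have ha : ∀ n, ∃ a : 𝓞 K, (a : K) = t * c n := by
    intro n
    by_cases h : d < n
    · exact ⟨0, by simp [hd n h]⟩
    · obtain ⟨a, ha⟩ := hb n (Finset.mem_range.2 (by omega))
      exact ⟨a, by simpa [Algebra.smul_def] using ha⟩
  choose a ha using ha
  have hat : a 0 = t := by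
    apply RingOfIntegers.ext
    rw [ha 0, hc0, mul_one]
  obtain ⟨B, hB⟩ : Ideal.span (Set.range a) ∣ Ideal.span {t} := by
    rw [Ideal.dvd_iff_le, Ideal.span_singleton_le_iff_mem]
    exact Ideal.subset_span ⟨0, hat⟩
  have hint : ∀ y ∈ B, ∀ n, ∃ z : 𝓞 K, (y : K) * c n = z := by
    intro y hy n
    have : a n * y ∈ Ideal.span {t} := hB ▸ Ideal.mul_mem_mul (Ideal.subset_span ⟨n, rfl⟩) hy
    obtain ⟨z, hz⟩ := Ideal.mem_span_singleton'.1 this
    refine ⟨z, mul_left_cancel₀ ht0 ?_⟩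
    have := congrArg (fun x : 𝓞 K => (x : K)) hz
    simp only [map_mul, ha] at this
    linear_combination -this
  have hone : ∀ w : AbsoluteValue K ℝ, IsNonarchimedean w → (∀ x : 𝓞 K, w x ≤ 1) →
      ∃ y ∈ B, ∃ n, 1 ≤ w ((y : K) * c n) := by
    intro w hw hi
    by_contra hcon
    push Not at hcon
    have htp : 0 < w t := w.pos ht0
    have hadd : ∀ x y : 𝓞 K, ((x + y : 𝓞 K) : K) = x + y := fun _ _ => by simp
    have hmul : ∀ x y : 𝓞 K, ((x * y : 𝓞 K) : K) = x * y := fun _ _ => by simp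
    have hmem : t ∈ Ideal.span (Set.range a) * B := hB ▸ Ideal.mem_span_singleton_self t
    have : w t < w t := by
      refine Submodule.mul_induction_on (C := fun x : 𝓞 K => w x < w t) hmem ?_ ?_
      · intro x hx y hy
        induction hx using Submodule.span_induction with
        | mem x hx =>
          obtain ⟨n, rfl⟩ := hx
          have : ((a n * y : 𝓞 K) : K) = t * (y * c n) := by
            simp only [map_mul, ha]; ring
          rw [this, map_mul]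
          exact mul_lt_of_lt_one_right htp (hcon y hy n)
        | zero => simpa using htp
        | add x x' _ _ hx hx' =>
          rw [add_mul, hadd]
          exact (hw _ _).trans_lt (max_lt hx hx')
        | smul r x _ hx =>
          rw [smul_eq_mul, mul_assoc, hmul, map_mul]
          exact (mul_le_of_le_one_left (w.nonneg _) (hi r)).trans_lt hx
      · intro x y hx hy
        rw [hadd]
        exact (hw _ _).trans_lt (max_lt hx hy)
    exact lt_irrefl _ this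
  obtain ⟨y₁, hy₁, n₁, hn₁⟩ := hone w₁ h₁ i₁
  obtain ⟨y₂, hy₂, n₂, hn₂⟩ := hone w₂ h₂ i₂
  by_cases e₁ : 1 ≤ w₂ ((y₁ : K) * c n₂)
  · exact ⟨y₁, hint y₁ hy₁, ⟨n₁, hn₁⟩, n₂, e₁⟩
  by_cases e₂ : 1 ≤ w₁ ((y₂ : K) * c n₁)
  · exact ⟨y₂, hint y₂ hy₂, ⟨n₁, e₂⟩, n₂, hn₂⟩
  have key : ∀ w : AbsoluteValue K ℝ, IsNonarchimedean w → ∀ x y : K, 1 ≤ w x → ¬ 1 ≤ w y →
      1 ≤ w (x + y) := by
    intro w hw x y hx hy
    by_contra h
    have := hw (x + y) (-y)
    rw [add_neg_cancel_right, w.map_neg] at this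
    exact absurd (hx.trans this) (not_le.2 (max_lt (not_le.1 h) (not_le.1 hy)))
  refine ⟨y₁ + y₂, ?_, ⟨n₁, ?_⟩, n₂, ?_⟩
  · simpa using hint (y₁ + y₂) (B.add_mem hy₁ hy₂)
  · rw [add_mul]; exact key w₁ h₁ _ _ hn₁ e₂
  · rw [add_mul, add_comm]; exact key w₂ h₂ _ _ hn₂ e₁

lemma ex_den' [NumberField L] {N : ℕ} (hN : 0 < N) {ζ : L} (hζ : IsPrimitiveRoot ζ N)
    (P : Polynomial L) (hP0 : P.coeff 0 = 1) (hP : ∀ n, P.coeff n ∈ adjoin ℚ {ζ})
    (w₁ w₂ : AbsoluteValue L ℝ) (h₁ : IsNonarchimedean w₁) (h₂ : IsNonarchimedean w₂) :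
    ∃ y : L, (∀ n, y * P.coeff n ∈ Algebra.adjoin ℤ {ζ}) ∧ (∃ n, 1 ≤ w₁ (y * P.coeff n)) ∧
      ∃ n, 1 ≤ w₂ (y * P.coeff n) := by
  have hinj : Function.Injective (algebraMap (adjoin ℚ {ζ}) L) := Subtype.val_injective
  obtain ⟨y, hy, ⟨n₁, hn₁⟩, n₂, hn₂⟩ := ex_den (K := adjoin ℚ {ζ}) P.natDegree
    (fun n => ⟨P.coeff n, hP n⟩) (Subtype.ext hP0)
    (fun n hn => Subtype.ext (Polynomial.coeff_eq_zero_of_natDegree_lt hn))
    (w₁.comp hinj) (w₂.comp hinj) (fun a b => h₁ a b) (fun a b => h₂ a b)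
    (fun x => v_adjoin w₁ h₁ (v_root w₁ hN hζ.pow_eq_one).le (int_mem hN hζ x))
    (fun x => v_adjoin w₂ h₂ (v_root w₂ hN hζ.pow_eq_one).le (int_mem hN hζ x))
  refine ⟨y, fun n => ?_, ⟨n₁, hn₁⟩, n₂, hn₂⟩
  obtain ⟨z, hz⟩ := hy n
  have : (y : L) * P.coeff n = ((z : adjoin ℚ {ζ}) : L) := congrArg Subtype.val hz
  rw [this]
  exact int_mem hN hζ z

lemma adjoin_cong [CharZero L] {ζ : L} (s : L →+* L) (j : ℕ)
    (hs : (s ζ = ζ ^ 2 ∧ j = 2) ∨ (s ζ = -ζ ∧ j = 1)) {x : L} (hx : x ∈ Algebra.adjoin ℤ {ζ}) :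
    ∃ t ∈ Algebra.adjoin ℤ {ζ}, s x = x ^ j + 2 * t := by
  have hz := Algebra.self_mem_adjoin_singleton ℤ ζ
  induction hx using Algebra.adjoin_induction with
  | mem x hx =>
    rw [Set.mem_singleton_iff.1 hx]
    rcases hs with ⟨h, rfl⟩ | ⟨h, rfl⟩
    · exact ⟨0, zero_mem _, by simp [h]⟩
    · exact ⟨-ζ, neg_mem hz, by rw [h]; ring⟩
  | algebraMap r =>
    rcases hs with ⟨h, rfl⟩ | ⟨h, rfl⟩
    · obtain ⟨t, ht⟩ := Int.even_mul_pred_self r
      refine ⟨(-t : ℤ), intCast_mem _ _, ?_⟩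
      have := congrArg (Int.cast : ℤ → L) ht
      push_cast at this
      simp only [algebraMap_int_eq, eq_intCast, map_intCast, Int.cast_neg]
      linear_combination -this
    · exact ⟨0, zero_mem _, by simp⟩
  | add x y hx' hy' hx hy =>
    obtain ⟨t, ht, e⟩ := hx
    obtain ⟨u, hu, e'⟩ := hy
    rcases hs with ⟨h, rfl⟩ | ⟨h, rfl⟩
    · exact ⟨t + u - x * y, sub_mem (add_mem ht hu) (mul_mem hx' hy'), by
        rw [map_add, e, e']; ring⟩
    · exact ⟨t + u, add_mem ht hu, by rw [map_add, e, e']; ring⟩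
  | mul x y hx' hy' hx hy =>
    obtain ⟨t, ht, e⟩ := hx
    obtain ⟨u, hu, e'⟩ := hy
    exact ⟨x ^ j * u + t * y ^ j + 2 * t * u, add_mem (add_mem (mul_mem (pow_mem hx' _) hu)
      (mul_mem ht (pow_mem hy' _))) (mul_mem (mul_mem (ofNat_mem _ 2) ht) hu), by
        rw [map_mul, e, e']; ring⟩

open Polynomial in
lemma ex_cong [CharZero L] {ζ : L} (s : L →+* L) (e : ℕ)
    (he : (s ζ = ζ ^ 2 ∧ e = 4) ∨ (s ζ = -ζ ∧ e = 2)) (O : Finset L) (y : L)
    (hy : ∀ n, y * (∏ β ∈ O, (1 - C β * X)).coeff n ∈ Algebra.adjoin ℤ {ζ}) :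
    ∃ A G : ℕ → L, (∀ n, A n ∈ Algebra.adjoin ℤ {ζ}) ∧ (∀ n, G n ∈ Algebra.adjoin ℤ {ζ}) ∧
      (∀ n, A n = y ^ e * (∏ β ∈ O, (1 - C (β ^ e) * X)).coeff n) ∧
      ∀ n, A n + 4 * G n = s y ^ 2 * (∏ β ∈ O, (1 - C (s β ^ 2) * X)).coeff n := by
  let R := Algebra.adjoin ℤ {ζ}
  obtain ⟨j, hj, hj'⟩ : ∃ j, ((s ζ = ζ ^ 2 ∧ j = 2) ∨ (s ζ = -ζ ∧ j = 1)) ∧ e = 2 * j := by
    rcases he with ⟨h, rfl⟩ | ⟨h, rfl⟩
    exacts [⟨2, Or.inl ⟨h, rfl⟩, rfl⟩, ⟨1, Or.inr ⟨h, rfl⟩, rfl⟩]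
  have hs : ∀ x : R, s x ∈ R := fun x => by
    obtain ⟨t, ht, h⟩ := adjoin_cong s j hj x.2
    rw [h]
    exact add_mem (pow_mem x.2 _) (mul_mem (ofNat_mem _ 2) ht)
  let f : R →+* L := algebraMap R L
  let s' : R →+* R := (s.comp f).codRestrict R hs
  have hs' : ∀ x : R, ∃ t : R, s' x = x ^ j + 2 * t := fun x => by
    obtain ⟨t, ht, h⟩ := adjoin_cong s j hj x.2
    exact ⟨⟨t, ht⟩, Subtype.ext h⟩
  obtain ⟨p, hp⟩ : C y * ∏ β ∈ O, (1 - C β * X) ∈ lifts f := by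
    rw [lifts_iff_coeff_lifts]
    intro n
    rw [coeff_C_mul]
    exact ⟨⟨_, hy n⟩, rfl⟩
  obtain ⟨A, G, hA, hG⟩ := cong4 f s' s (fun _ => rfl) e (by
    rcases hj with ⟨-, rfl⟩ | ⟨-, rfl⟩
    · exact Or.inl ⟨hs', hj'⟩
    · exact Or.inr ⟨by simpa using hs', hj'⟩) p y O hp
  refine ⟨fun n => f (A.coeff n), fun n => f (G.coeff n), fun n => (A.coeff n).2,
    fun n => (G.coeff n).2, fun n => ?_, fun n => ?_⟩
  · rw [← coeff_C_mul, ← hA, coeff_map]
  · rw [← coeff_C_mul, ← hG, coeff_map, coeff_add, map_add, ← C_ofNat, coeff_C_mul, map_mul,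
      map_ofNat]

open PowerSeries in
theorem fin_bound (L : Type) [Field L] [NumberField L] {N : ℕ} (hN : 0 < N) {ζ : L}
    (hζ : IsPrimitiveRoot ζ N) (O : Finset L)
    (hO : ∀ n, (∏ β ∈ O, (1 - Polynomial.C β * Polynomial.X)).coeff n ∈
      IntermediateField.adjoin ℚ {ζ}) (s : L ≃ₐ[ℚ] L) (e : ℕ)
    (he : (s ζ = ζ ^ 2 ∧ e = 4) ∨ (s ζ = -ζ ∧ e = 2)) (Z : Multiset L)
    (hZ : Z = O.val.map (fun β => β ^ e) + O.val.map (fun β => s β ^ 2)) :
    ∃ g : PowerSeries L, constantCoeff g = 1 ∧ g ^ 2 = (Z.map fun a => 1 - C a * X).prod ∧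
      ∀ v : AbsoluteValue L ℝ, IsNonarchimedean v → ∀ m,
        v (coeff m g) ≤ (Z.map fun a => max 1 (v a)).prod ^ m := by
  obtain ⟨g, hg0, hg⟩ := ex_sqrt Z
  refine ⟨g, hg0, hg, fun v hv m => ?_⟩
  have hc0 : ∀ φ : L → L,
      (∏ β ∈ O, (1 - Polynomial.C (φ β) * Polynomial.X)).coeff 0 = 1 := fun φ => by
    simp [Polynomial.coeff_zero_prod]
  let v' : AbsoluteValue L ℝ := v.comp (f := (s : L →+* L)) s.injective
  have hv' : IsNonarchimedean v' := fun a b => by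
    change v (s (a + b)) ≤ max (v (s a)) (v (s b))
    rw [map_add]; exact hv _ _
  obtain ⟨y, hy, ⟨n₁, h₁⟩, n₂, h₂⟩ := ex_den' hN hζ _ (hc0 fun β => β) hO v v' hv hv'
  obtain ⟨A, G, hA, hG, eA, eG⟩ := ex_cong (s : L →+* L) e he O y hy
  set P := ∏ β ∈ O, (1 - Polynomial.C (β ^ e) * Polynomial.X) with hP
  set Q := ∏ β ∈ O, (1 - Polynomial.C ((s : L →+* L) β ^ 2) * Polynomial.X) with hQ
  have hR : ∀ x ∈ Algebra.adjoin ℤ {ζ}, x ∈ vring v hv := fun x hx =>
    v_adjoin v hv (v_root v hN hζ.pow_eq_one).le hx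
  have a0 : A 0 = y ^ e := by rw [eA, hP, hc0, mul_one]
  have b0 : A 0 + 4 * G 0 = (s : L →+* L) y ^ 2 := by rw [eG, hQ, hc0, mul_one]
  set a := y ^ e with ha
  set b := (s : L →+* L) y ^ 2 with hb
  have ma : a ∈ vring v hv := a0 ▸ hR _ (hA 0)
  have mb : b ∈ vring v hv := b0 ▸ hR _ (add_mem (hA 0) (mul_mem (ofNat_mem _ 4) (hG 0)))
  have hprod : (Z.map fun a => 1 - C a * X).prod = (P : L⟦X⟧) * (Q : L⟦X⟧) := by
    have hc : ∀ φ : L → L, ((∏ β ∈ O, (1 - Polynomial.C (φ β) * Polynomial.X) : Polynomial L) :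
        L⟦X⟧) = ∏ β ∈ O, (1 - C (φ β) * X) := fun φ => by
      rw [← Polynomial.coeToPowerSeries.ringHom_apply, map_prod]
      simp
    rw [hZ, Multiset.map_add, Multiset.prod_add, Multiset.map_map, Multiset.map_map, hP, hQ, hc, hc]
    rfl
  have key := sq_int (vring v hv) (rescale (a * b) (P : L⟦X⟧))
    (mk fun n => if n = 0 then 0 else (a * b) ^ (n - 1) * (a * G n - G 0 * A n))
    (rescale (a * b) g) (by rw [coeff_rescale, Polynomial.coeff_coe, hP, hc0]; simp)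
    (by simp [hg0]) (fun n => ?_) (fun n => ?_) ?_ m
  · have k1 : v (a * b) ^ m * v (coeff m g) ≤ 1 := by
      have : v (coeff m (rescale (a * b) g)) ≤ 1 := key
      rwa [coeff_rescale, map_mul, map_pow] at this
    have hmax : ∀ (x : ℝ) (j : ℕ), 0 ≤ x → max 1 (x ^ j) = max 1 x ^ j := fun x j hx => by
      rcases le_total x 1 with h | h
      · rw [max_eq_left h, max_eq_left (pow_le_one₀ hx h), one_pow]
      · rw [max_eq_right h, max_eq_right (one_le_pow₀ h)]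
    have k2 : 1 ≤ v (a * b) * (Z.map fun a => max 1 (v a)).prod := by
      have e1 : (Z.map fun a => max 1 (v a)).prod =
          (∏ β ∈ O, max 1 (v β)) ^ e * (∏ β ∈ O, max 1 (v' β)) ^ 2 := by
        rw [hZ, Multiset.map_add, Multiset.prod_add, Multiset.map_map, Multiset.map_map,
          ← Finset.prod_pow, ← Finset.prod_pow]
        congr 1
        · exact Finset.prod_congr rfl fun β _ => by
            simp only [Function.comp, map_pow]; exact hmax _ _ (v.nonneg _)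
        · exact Finset.prod_congr rfl fun β _ => by
            simp only [Function.comp, map_pow]; exact hmax _ _ (v.nonneg _)
      have e2 : 1 ≤ v y * ∏ β ∈ O, max 1 (v β) := by
        rw [map_mul] at h₁
        exact h₁.trans (mul_le_mul_of_nonneg_left (v_coeff_le v hv O (fun β => β) n₁) (v.nonneg _))
      have e3 : 1 ≤ v' y * ∏ β ∈ O, max 1 (v' β) := by
        rw [map_mul] at h₂
        exact h₂.trans
          (mul_le_mul_of_nonneg_left (v_coeff_le v' hv' O (fun β => β) n₂) (v'.nonneg _))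
      have e4 : v (a * b) = v y ^ e * v' y ^ 2 := by
        rw [map_mul, ha, hb, map_pow, map_pow]; rfl
      rw [e1, e4, mul_mul_mul_comm, ← mul_pow, ← mul_pow]
      exact one_le_mul_of_one_le_of_one_le (one_le_pow₀ e2) (one_le_pow₀ e3)
    have k3 : 0 ≤ (Z.map fun a => max 1 (v a)).prod :=
      Multiset.prod_nonneg fun x hx => by
        obtain ⟨a, -, rfl⟩ := Multiset.mem_map.1 hx
        exact zero_le_one.trans (le_max_left _ _)
    calc v (coeff m g) ≤ (v (a * b) * (Z.map fun a => max 1 (v a)).prod) ^ m * v (coeff m g) :=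
          le_mul_of_one_le_left (v.nonneg _) (one_le_pow₀ k2)
      _ = (Z.map fun a => max 1 (v a)).prod ^ m * (v (a * b) ^ m * v (coeff m g)) := by ring
      _ ≤ _ := mul_le_of_le_one_right (pow_nonneg k3 _) k1
  · rw [coeff_rescale, Polynomial.coeff_coe]
    rcases n with _ | n
    · rw [hP, hc0]; simp
    · have : (a * b) ^ (n + 1) * P.coeff (n + 1) = (a * b) ^ n * b * A (n + 1) := by
        rw [eA]; ring
      rw [this]
      exact mul_mem (mul_mem (pow_mem (mul_mem ma mb) _) mb) (hR _ (hA _))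
  · rw [coeff_mk]
    split_ifs
    · exact zero_mem _
    · exact mul_mem (pow_mem (mul_mem ma mb) _)
        (sub_mem (mul_mem ma (hR _ (hG _))) (mul_mem (hR _ (hG _)) (hR _ (hA _))))
  · rw [← map_pow, hg, hprod, map_mul]
    congr 1
    ext n
    rw [map_add, ← map_ofNat (C (R := L)) 4, coeff_C_mul, coeff_mk, coeff_rescale, coeff_rescale,
      Polynomial.coeff_coe, Polynomial.coeff_coe]
    rcases n with _ | n
    · rw [hP, hQ, hc0, hc0]; simp
    · have e1 := eA (n + 1)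
      have e2 := eG (n + 1)
      rw [a0] at b0
      simp only [Nat.add_eq_zero_iff, one_ne_zero, and_false, if_false, Nat.add_sub_cancel]
      linear_combination (-(a * b) ^ n * a) * e2 + ((a * b) ^ n * b) * e1 +
        ((a * b) ^ n * A (n + 1)) * b0

end Pool.Agent.Lib.MP_f61260_nt.L2
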