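import Mathlib

/-! Graeffe transforms modulo 4 and integrality of square roots of power series. -/

set_option autoImplicit false

namespace Pool.Agent.Lib.MP_f61260_nt.L2

section Poly

open Polynomial

variable {R : Type*} [CommRing R]

lemma ex_even_odd (p : R[X]) : ∃ E O : R[X], p = expand R 2 E + X * expand R 2 O := by
  induction p using Polynomial.induction_on' with
  | add p q hp hq =>
    obtain ⟨E, O, rfl⟩ := hp
    obtain ⟨E', O', rfl⟩ := hq
    exact ⟨E + E', O + O', by simp only [map_add]; ring⟩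
  | monomial n a =>
    obtain ⟨k, rfl | rfl⟩ := Nat.even_or_odd' n
    · exact ⟨monomial k a, 0, by simp [expand_monomial, mul_comm]⟩
    · refine ⟨0, monomial k a, ?_⟩
      simp only [map_zero, zero_add, expand_monomial, X_mul_monomial, mul_comm]

/-- `A` is the Graeffe transform of `p`. -/
def IsGr (p A : R[X]) : Prop := expand R 2 A = p * p.comp (-X)

lemma expand_comp_neg (E : R[X]) : (expand R 2 E).comp (-X) = expand R 2 E := by
  rw [expand_eq_comp_X_pow, comp_assoc]; simp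

lemma isGr_of (E O : R[X]) : IsGr (expand R 2 E + X * expand R 2 O) (E ^ 2 - X * O ^ 2) := by
  unfold IsGr
  simp only [add_comp, mul_comp, expand_comp_neg, X_comp, map_sub, map_mul, map_pow, expand_X]
  ring

lemma IsGr.unique {p A B : R[X]} (h : IsGr p A) (h' : IsGr p B) : A = B :=
  expand_injective two_pos (h.trans h'.symm)

lemma IsGr.map {S : Type*} [CommRing S] (f : R →+* S) {p A : R[X]} (h : IsGr p A) :
    IsGr (p.map f) (A.map f) := by
  unfold IsGr at *
  rw [← map_expand, h, Polynomial.map_mul, map_comp]; simp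

lemma isGr_prod {ι : Type*} (c : R) (O : Finset ι) (φ : ι → R) :
    IsGr (C c * ∏ i ∈ O, (1 - C (φ i) * X)) (C (c ^ 2) * ∏ i ∈ O, (1 - C (φ i ^ 2) * X)) := by
  unfold IsGr
  simp only [map_mul, map_prod, expand_C, mul_comp, C_comp, prod_comp, map_sub, map_one, expand_X,
    sub_comp, one_comp, X_comp, map_pow]
  rw [mul_mul_mul_comm, ← Finset.prod_mul_distrib, sq]
  congr 1
  exact Finset.prod_congr rfl fun i _ => by ring

lemma gr_cong (p r : R[X]) : ∃ A G : R[X], IsGr p A ∧ IsGr (p + 2 * r) (A + 4 * G) := by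
  obtain ⟨E, O, rfl⟩ := ex_even_odd p
  obtain ⟨E', O', rfl⟩ := ex_even_odd r
  refine ⟨_, E * E' + E' ^ 2 - X * (O * O' + O' ^ 2), isGr_of E O, ?_⟩
  have h := isGr_of (E + 2 * E') (O + 2 * O')
  convert h using 1
  · simp only [map_add, map_mul, map_ofNat]; ring
  · ring

lemma sq_frob (s : R →+* R) (hs : ∀ x, ∃ t, s x = x ^ 2 + 2 * t) (E : R[X]) :
    ∃ r, expand R 2 (E.map s) = E ^ 2 + 2 * r := by
  induction E using Polynomial.induction_on' with
  | add p q hp hq =>
    obtain ⟨r, hr⟩ := hp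
    obtain ⟨r', hr'⟩ := hq
    exact ⟨r + r' - p * q, by rw [Polynomial.map_add, map_add, hr, hr']; ring⟩
  | monomial n a =>
    obtain ⟨t, ht⟩ := hs a
    refine ⟨C t * X ^ (n * 2), ?_⟩
    rw [map_monomial, expand_monomial, ht, ← C_mul_X_pow_eq_monomial, ← C_mul_X_pow_eq_monomial]
    simp only [map_add, map_mul, map_pow, map_ofNat]
    ring

lemma gr_frob (s : R →+* R) (hs : ∀ x, ∃ t, s x = x ^ 2 + 2 * t) (p : R[X]) :
    ∃ A r : R[X], IsGr p A ∧ p.map s = A + 2 * r := by
  obtain ⟨E, O, rfl⟩ := ex_even_odd p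
  obtain ⟨r, hr⟩ := sq_frob s hs E
  obtain ⟨r', hr'⟩ := sq_frob s hs O
  refine ⟨_, r + X * r' + X * O ^ 2, isGr_of E O, ?_⟩
  rw [Polynomial.map_add, Polynomial.map_mul, map_expand, map_expand, map_X, hr, hr']
  ring

lemma map_cong (s : R →+* R) (hs : ∀ x, ∃ t, s x = x + 2 * t) (p : R[X]) :
    ∃ r, p.map s = p + 2 * r := by
  induction p using Polynomial.induction_on' with
  | add p q hp hq =>
    obtain ⟨r, hr⟩ := hp
    obtain ⟨r', hr'⟩ := hq
    exact ⟨r + r', by rw [Polynomial.map_add, hr, hr']; ring⟩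
  | monomial n a =>
    obtain ⟨t, ht⟩ := hs a
    refine ⟨C t * X ^ n, ?_⟩
    rw [map_monomial, ht, ← C_mul_X_pow_eq_monomial, ← C_mul_X_pow_eq_monomial]
    simp only [map_add, map_mul, map_ofNat]
    ring

/-- The congruence modulo 4 between the two polynomials. -/
theorem cong4 {L : Type*} [CommRing L] (f : R →+* L) (s : R →+* R) (σ : L →+* L)
    (hfs : ∀ x, f (s x) = σ (f x)) (e : ℕ)
    (he : ((∀ x, ∃ t, s x = x ^ 2 + 2 * t) ∧ e = 4) ∨ ((∀ x, ∃ t, s x = x + 2 * t) ∧ e = 2))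
    (p : R[X]) (y : L) (O : Finset L) (hp : p.map f = C y * ∏ β ∈ O, (1 - C β * X)) :
    ∃ A G : R[X], A.map f = C (y ^ e) * ∏ β ∈ O, (1 - C (β ^ e) * X) ∧
      (A + 4 * G).map f = C (σ y ^ 2) * ∏ β ∈ O, (1 - C (σ β ^ 2) * X) := by
  have hq : (p.map s).map f = C (σ y) * ∏ β ∈ O, (1 - C (σ β) * X) := by
    have : f.comp s = σ.comp f := RingHom.ext hfs
    rw [map_map, this, ← map_map, hp]
    simp [Polynomial.map_prod]
  have key : ∀ {q B : R[X]} {c : L} {φ : L → L}, IsGr q B →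
      q.map f = C c * ∏ β ∈ O, (1 - C (φ β) * X) →
      B.map f = C (c ^ 2) * ∏ β ∈ O, (1 - C (φ β ^ 2) * X) := by
    intro q B c φ h1 h2
    have h3 := h1.map f
    rw [h2] at h3
    exact h3.unique (isGr_prod c O φ)
  rcases he with ⟨hs, rfl⟩ | ⟨hs, rfl⟩
  · obtain ⟨A1, r, h1, h2⟩ := gr_frob s hs p
    obtain ⟨A, G, h3, h4⟩ := gr_cong A1 r
    rw [← h2] at h4
    refine ⟨A, G, ?_, key h4 hq⟩
    have := key h3 (key (φ := fun β => β) h1 hp)
    simpa only [← pow_mul] using this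
  · obtain ⟨r, h2⟩ := map_cong s hs p
    obtain ⟨A, G, h3, h4⟩ := gr_cong p r
    rw [← h2] at h4
    exact ⟨A, G, key (φ := fun β => β) h3 hp, key h4 hq⟩

end Poly

section Series

open PowerSeries

variable {L : Type*} [Field L] [CharZero L]

omit [CharZero L] in
lemma coeff_mul_mem (S : Subring L) {f g : L⟦X⟧} {n : ℕ} (hf0 : coeff 0 f = 0)
    (hg0 : coeff 0 g = 0) (hf : ∀ i < n, coeff i f ∈ S) (hg : ∀ i < n, coeff i g ∈ S) :
    coeff n (f * g) ∈ S := by
  rw [coeff_mul]
  refine S.sum_mem fun p hp => ?_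
  have hp' := Finset.HasAntidiagonal.mem_antidiagonal.1 hp
  rcases Nat.eq_zero_or_pos p.1 with h | h
  · rw [h, hf0, zero_mul]; exact S.zero_mem
  rcases Nat.eq_zero_or_pos p.2 with h' | h'
  · rw [h', hg0, mul_zero]; exact S.zero_mem
  exact S.mul_mem (hf _ (by omega)) (hg _ (by omega))

lemma sq_int (S : Subring L) (A H g : L⟦X⟧) (hA0 : coeff 0 A = 1) (hg0 : coeff 0 g = 1)
    (hA : ∀ n, coeff n A ∈ S) (hH : ∀ n, coeff n H ∈ S) (hg : g ^ 2 = A * (A + 4 * H)) (n : ℕ) :
    coeff n g ∈ S := by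
  obtain ⟨u, hu⟩ : ∃ u : L⟦X⟧, g = A + 2 * u := by
    refine ⟨C (2⁻¹ : L) * (g - A), ?_⟩
    have : (2 : L⟦X⟧) * C (2⁻¹ : L) = 1 := by
      rw [← map_ofNat (C (R := L)) 2, ← map_mul]; simp
    rw [← mul_assoc, this]; ring
  have h2 : ∀ (m : ℕ) (w : L⟦X⟧), coeff m (2 * w) = 2 * coeff m w := fun m w => by
    rw [two_mul, two_mul, map_add]
  have hu0 : coeff 0 u = 0 := by
    have := congrArg (coeff 0) hu
    rw [map_add, h2, hA0, hg0] at this
    simpa using this
  have h4 : (4 : L⟦X⟧) ≠ 0 := by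
    rw [← map_ofNat (C (R := L)) 4]
    exact fun h => by simpa using congrArg (coeff 0) h
  have hrec : u = A * H - (A - 1) * u - u * u := by
    apply mul_left_cancel₀ h4
    rw [hu] at hg
    linear_combination hg
  have hmem : ∀ m, coeff m u ∈ S := by
    intro m
    induction m using Nat.strong_induction_on with
    | _ m ih =>
      rw [hrec, map_sub, map_sub]
      refine S.sub_mem (S.sub_mem ?_ (coeff_mul_mem S (by rw [map_sub, hA0]; simp) hu0 (fun i _ => ?_) ih))
        (coeff_mul_mem S hu0 hu0 ih ih)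
      · rw [coeff_mul]
        exact S.sum_mem fun p _ => S.mul_mem (hA _) (hH _)
      · rw [map_sub, coeff_one]
        refine S.sub_mem (hA i) ?_
        split_ifs
        exacts [S.one_mem, S.zero_mem]
  rw [hu, map_add, h2, two_mul]
  exact S.add_mem (hA n) (S.add_mem (hmem n) (hmem n))

lemma ex_sqrt (Z : Multiset L) :
    ∃ g : L⟦X⟧, constantCoeff g = 1 ∧ g ^ 2 = (Z.map fun a => 1 - C a * X).prod := by
  induction Z using Multiset.induction_on with
  | empty => exact ⟨1, by simp, by simp⟩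
  | cons a Z ih =>
    obtain ⟨g, h0, hg⟩ := ih
    refine ⟨rescale (-a) (binomialSeries L (2⁻¹ : L)) * g, ?_, ?_⟩
    · rw [map_mul, h0, ← coeff_zero_eq_constantCoeff_apply, coeff_rescale]
      simp
    · rw [mul_pow, hg, Multiset.map_cons, Multiset.prod_cons, ← map_pow, sq, ← binomialSeries_add]
      have : (2⁻¹ + 2⁻¹ : L) = ((1 : ℕ) : L) := by norm_num
      rw [this, binomialSeries_nat, pow_one, map_add, map_one, rescale_X]
      simp [sub_eq_add_neg]

end Series

end Pool.Agent.Lib.MP_f61260_nt.L2
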